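import Pool.Agent.Helper23.EB.Lad
import Pool.Agent.Helper23.PI.Core3

/-!
# The forcing notion adding a ladder system by countable conditions
-/

namespace Pool.Agent.Helper23.EB

open Set Cardinal Pool.Agent.Helper96.Fc Pool.Agent.Helper23.PI

set_option linter.unusedSectionVars false

variable {K : Type} [LinearOrder K]

/-- the raw data of a condition: the indices of the ladders, the ladders (pairs `(δ, ξ)` with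
`ξ ∈ A_δ`), the active ordinals `α`, the cut points (triples `(α, δ, ζ)`) -/
@[ext]
structure Rw (K : Type) where
  e : Set K
  L : Set (K × K)
  a : Set K
  F : Set (K × K × K)

/-- conditions -/
structure IsCnd (p : Rw K) : Prop where
  cte : p.e.Countable
  cta : p.a.Countable
  lad : ∀ δ ξ, (δ, ξ) ∈ p.L → δ ∈ p.e ∧ ξ < δ
  fin : ∀ δ ∈ p.e, ∀ ζ < δ, {ξ | (δ, ξ) ∈ p.L ∧ ξ ≤ ζ}.Finite
  cof : ∀ δ ∈ p.e, ∀ ζ < δ, ∃ ξ, (δ, ξ) ∈ p.L ∧ ζ < ξ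
  ne : ∀ δ ∈ p.e, ∃ ξ, (δ, ξ) ∈ p.L
  fdm : ∀ α δ ζ, (α, δ, ζ) ∈ p.F → α ∈ p.a ∧ δ ∈ p.e ∧ δ < α ∧ ζ < δ
  ftt : ∀ α ∈ p.a, ∀ δ ∈ p.e, δ < α → ∃ ζ, (α, δ, ζ) ∈ p.F
  ffn : ∀ α δ ζ ζ', (α, δ, ζ) ∈ p.F → (α, δ, ζ') ∈ p.F → ζ = ζ'
  dis : ∀ α δ δ' ζ ζ' ξ, (α, δ, ζ) ∈ p.F → (α, δ', ζ') ∈ p.F → (δ, ξ) ∈ p.L → (δ', ξ) ∈ p.L →
    ζ ≤ ξ → ζ' ≤ ξ → δ = δ'

/-- the conditions -/
def Cnd (K : Type) [LinearOrder K] : Type := {p : Rw K // IsCnd p}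

instance : PartialOrder (Cnd K) where
  le q p := p.1.e ⊆ q.1.e ∧ p.1.L ⊆ q.1.L ∧ p.1.a ⊆ q.1.a ∧ p.1.F ⊆ q.1.F ∧
    ∀ δ ∈ p.1.e, ∀ ξ, (δ, ξ) ∈ q.1.L → (δ, ξ) ∈ p.1.L
  le_refl p := ⟨subset_rfl, subset_rfl, subset_rfl, subset_rfl, fun _ _ _ h => h⟩
  le_trans r q p h1 h2 := ⟨h2.1.trans h1.1, h2.2.1.trans h1.2.1, h2.2.2.1.trans h1.2.2.1,
    h2.2.2.2.1.trans h1.2.2.2.1, fun δ hδ ξ h => h2.2.2.2.2 δ hδ ξ (h1.2.2.2.2 δ (h2.1 hδ) ξ h)⟩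
  le_antisymm q p h1 h2 := Subtype.ext (Rw.ext (h2.1.antisymm h1.1) (h2.2.1.antisymm h1.2.1)
    (h2.2.2.1.antisymm h1.2.2.1) (h2.2.2.2.1.antisymm h1.2.2.2.1))

instance : OrderTop (Cnd K) where
  top := ⟨⟨∅, ∅, ∅, ∅⟩, by
    constructor <;> simp⟩
  le_top p := ⟨empty_subset _, empty_subset _, empty_subset _, empty_subset _,
    fun _ h => h.elim⟩

/-! ### Lower bounds of decreasing sequences -/

/-- the union of a decreasing sequence of conditions -/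
def lmRw (p : ℕ → Cnd K) : Rw K where
  e := ⋃ n, (p n).1.e
  L := ⋃ n, (p n).1.L
  a := ⋃ n, (p n).1.a
  F := ⋃ n, (p n).1.F

theorem lm_L {p : ℕ → Cnd K} (hp : Antitone p) {δ ξ : K} {n : ℕ} (hδ : δ ∈ (p n).1.e)
    (h : (δ, ξ) ∈ (lmRw p).L) : (δ, ξ) ∈ (p n).1.L := by
  obtain ⟨m, hm⟩ := mem_iUnion.1 h
  exact (hp (le_max_right m n)).2.2.2.2 δ hδ ξ ((hp (le_max_left m n)).2.1 hm)

theorem lm_cond {p : ℕ → Cnd K} (hp : Antitone p) : IsCnd (lmRw p) where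
  cte := countable_iUnion fun n => (p n).2.cte
  cta := countable_iUnion fun n => (p n).2.cta
  lad δ ξ h := by
    obtain ⟨n, hn⟩ := mem_iUnion.1 h
    have := (p n).2.lad δ ξ hn
    exact ⟨mem_iUnion.2 ⟨n, this.1⟩, this.2⟩
  fin δ hδ ζ hζ := by
    obtain ⟨n, hn⟩ := mem_iUnion.1 hδ
    exact ((p n).2.fin δ hn ζ hζ).subset fun ξ hξ => ⟨lm_L hp hn hξ.1, hξ.2⟩
  cof δ hδ ζ hζ := by
    obtain ⟨n, hn⟩ := mem_iUnion.1 hδ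
    obtain ⟨ξ, h1, h2⟩ := (p n).2.cof δ hn ζ hζ
    exact ⟨ξ, mem_iUnion.2 ⟨n, h1⟩, h2⟩
  ne δ hδ := by
    obtain ⟨n, hn⟩ := mem_iUnion.1 hδ
    obtain ⟨ξ, h1⟩ := (p n).2.ne δ hn
    exact ⟨ξ, mem_iUnion.2 ⟨n, h1⟩⟩
  fdm α δ ζ h := by
    obtain ⟨n, hn⟩ := mem_iUnion.1 h
    obtain ⟨h1, h2, h3, h4⟩ := (p n).2.fdm α δ ζ hn
    exact ⟨mem_iUnion.2 ⟨n, h1⟩, mem_iUnion.2 ⟨n, h2⟩, h3, h4⟩
  ftt α hα δ hδ h := by
    obtain ⟨n, hn⟩ := mem_iUnion.1 hα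
    obtain ⟨m, hm⟩ := mem_iUnion.1 hδ
    obtain ⟨ζ, hζ⟩ := (p (max n m)).2.ftt α ((hp (le_max_left n m)).2.2.1 hn) δ
      ((hp (le_max_right n m)).1 hm) h
    exact ⟨ζ, mem_iUnion.2 ⟨_, hζ⟩⟩
  ffn α δ ζ ζ' h h' := by
    obtain ⟨n, hn⟩ := mem_iUnion.1 h
    obtain ⟨m, hm⟩ := mem_iUnion.1 h'
    exact (p (max n m)).2.ffn α δ ζ ζ' ((hp (le_max_left n m)).2.2.2.1 hn)
      ((hp (le_max_right n m)).2.2.2.1 hm)
  dis α δ δ' ζ ζ' ξ h h' hL hL' h1 h2 := by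
    obtain ⟨n, hn⟩ := mem_iUnion.1 h
    obtain ⟨m, hm⟩ := mem_iUnion.1 h'
    have hn' := (hp (le_max_left n m)).2.2.2.1 hn
    have hm' := (hp (le_max_right n m)).2.2.2.1 hm
    exact (p (max n m)).2.dis α δ δ' ζ ζ' ξ hn' hm'
      (lm_L hp ((p (max n m)).2.fdm _ _ _ hn').2.1 hL)
      (lm_L hp ((p (max n m)).2.fdm _ _ _ hm').2.1 hL') h1 h2

/-- the lower bound of a decreasing sequence -/
def lm (p : ℕ → Cnd K) (hp : Antitone p) : Cnd K := ⟨lmRw p, lm_cond hp⟩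

theorem lm_le (p : ℕ → Cnd K) (hp : Antitone p) (n : ℕ) : lm p hp ≤ p n :=
  ⟨subset_iUnion (fun n => (p n).1.e) n, subset_iUnion (fun n => (p n).1.L) n,
    subset_iUnion (fun n => (p n).1.a) n, subset_iUnion (fun n => (p n).1.F) n,
    fun _ hδ _ h => lm_L hp hδ h⟩

theorem sigmaClosed_Cnd : SigmaClosed (Cnd K) := fun p hp => ⟨lm p hp, lm_le p hp⟩

/-! ### Disjoint tails of countably many ladders -/

/-- Countably many ladders have disjoint tails, beyond given points. -/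
theorem exists_cut {e : Set K} {L : Set (K × K)} (he : e.Countable)
    (lad : ∀ δ ξ, (δ, ξ) ∈ L → ξ < δ) (fin : ∀ δ ∈ e, ∀ ζ < δ, {ξ | (δ, ξ) ∈ L ∧ ξ ≤ ζ}.Finite)
    (cof : ∀ δ ∈ e, ∀ ζ < δ, ∃ ξ, (δ, ξ) ∈ L ∧ ζ < ξ) (g : K → K) (hg : ∀ δ ∈ e, g δ < δ) :
    ∃ c : K → K, (∀ δ ∈ e, g δ ≤ c δ ∧ c δ < δ) ∧
      ∀ δ ∈ e, ∀ δ' ∈ e, ∀ ξ, (δ, ξ) ∈ L → (δ', ξ) ∈ L → c δ ≤ ξ → c δ' ≤ ξ → δ = δ' := by
  classical
  rcases e.eq_empty_or_nonempty with rfl | hne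
  · exact ⟨g, fun δ hδ => hδ.elim, fun δ hδ => hδ.elim⟩
  -- two ladders have a finite intersection
  have hfin : ∀ δ ∈ e, ∀ δ' ∈ e, δ ≠ δ' → {ξ | (δ, ξ) ∈ L ∧ (δ', ξ) ∈ L}.Finite := by
    intro δ hδ δ' hδ' hne
    rcases lt_or_gt_of_ne hne with h | h
    · exact (fin δ' hδ' δ h).subset fun ξ hξ => ⟨hξ.2, (lad δ ξ hξ.1).le⟩
    · exact (fin δ hδ δ' h).subset fun ξ hξ => ⟨hξ.1, (lad δ' ξ hξ.2).le⟩
  obtain ⟨f, hf⟩ := he.exists_eq_range hne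
  have hfe : ∀ n, f n ∈ e := fun n => by rw [hf]; exact ⟨n, rfl⟩
  -- the first index
  have hidx : ∀ δ ∈ e, ∃ n, f n = δ := fun δ hδ => by rw [hf] at hδ; exact hδ
  let i : K → ℕ := fun δ => if h : ∃ n, f n = δ then Nat.find h else 0
  have hi : ∀ δ ∈ e, f (i δ) = δ := by
    intro δ hδ
    have h : ∃ n, f n = δ := hidx δ hδ
    simp only [i, dif_pos h]
    exact Nat.find_spec h
  -- a point beyond the intersections with the earlier ladders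
  have key : ∀ δ ∈ e, ∃ c, g δ ≤ c ∧ c < δ ∧ ∀ n < i δ, f n ≠ δ → ∀ ξ, (δ, ξ) ∈ L → (f n, ξ) ∈ L →
      ξ < c := by
    intro δ hδ
    have h1 : (⋃ n ∈ {n | n < i δ ∧ f n ≠ δ}, {ξ | (δ, ξ) ∈ L ∧ (f n, ξ) ∈ L}).Finite := by
      refine Set.Finite.biUnion ((Set.finite_lt_nat (i δ)).subset fun n hn => hn.1) ?_
      intro n hn
      exact hfin δ hδ (f n) (hfe n) (Ne.symm hn.2)
    have h2 : ∀ S : Set K, S.Finite → (∀ ξ ∈ S, ξ < δ) → ∃ c, g δ ≤ c ∧ c < δ ∧ ∀ ξ ∈ S, ξ < c := by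
      intro S hS
      induction S, hS using Set.Finite.induction_on with
      | empty => exact fun _ => ⟨g δ, le_rfl, hg δ hδ, fun ξ hξ => hξ.elim⟩
      | @insert a S _ _ ih =>
        intro h
        obtain ⟨c, h3, h4, h5⟩ := ih fun ξ hξ => h ξ (Or.inr hξ)
        have h6 : max a c < δ := max_lt (h a (Or.inl rfl)) h4
        obtain ⟨ξ, h7, h8⟩ := cof δ hδ _ h6
        refine ⟨ξ, h3.trans ((le_max_right _ _).trans h8.le), lad δ ξ h7, ?_⟩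
        rintro η (rfl | hη)
        · exact (le_max_left _ _).trans_lt h8
        · exact (h5 η hη).trans ((le_max_right _ _).trans_lt h8)
    obtain ⟨c, h3, h4, h5⟩ := h2 _ h1 (by
      intro ξ hξ
      simp only [mem_iUnion] at hξ
      obtain ⟨n, -, hξ⟩ := hξ
      exact lad δ ξ hξ.1)
    refine ⟨c, h3, h4, fun n hn hne ξ hξ hξ' => h5 ξ ?_⟩
    simp only [mem_iUnion]
    exact ⟨n, ⟨hn, hne⟩, hξ, hξ'⟩
  choose! c h1 h2 h3 using key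
  refine ⟨c, fun δ hδ => ⟨h1 δ hδ, h2 δ hδ⟩, ?_⟩
  intro δ hδ δ' hδ' ξ hξ hξ' hc hc'
  by_contra hne
  rcases lt_trichotomy (i δ) (i δ') with h | h | h
  · have := h3 δ' hδ' (i δ) h (by rw [hi δ hδ]; exact hne) ξ hξ' (by rw [hi δ hδ]; exact hξ)
    exact absurd hc' (not_le.2 this)
  · apply hne
    rw [← hi δ hδ, h, hi δ' hδ']
  · have := h3 δ hδ (i δ') h (by rw [hi δ' hδ']; exact Ne.symm hne) ξ hξ
      (by rw [hi δ' hδ']; exact hξ')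
    exact absurd hc (not_le.2 this)

/-- the ladders are not empty -/
theorem exists_pt (p : Cnd K) {δ : K} (hδ : δ ∈ p.1.e) {ζ : K} (hζ : ζ < δ) :
    ∃ ξ, ζ < ξ ∧ ξ < δ := by
  obtain ⟨ξ, h1, h2⟩ := p.2.cof δ hδ ζ hζ
  exact ⟨ξ, h2, (p.2.lad δ ξ h1).2⟩

/-- An ordinal can be made active, with cut points beyond given points. -/
theorem add_a (p : Cnd K) (α : K) (hα : α ∉ p.1.a) (g : K → K) (hg : ∀ δ ∈ p.1.e, g δ < δ) :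
    ∃ q ≤ p, α ∈ q.1.a ∧ q.1.e = p.1.e ∧ q.1.L = p.1.L ∧
      ∀ δ ζ, (α, δ, ζ) ∈ q.1.F → g δ ≤ ζ := by
  obtain ⟨c, h1, h2⟩ := exists_cut p.2.cte (fun δ ξ h => (p.2.lad δ ξ h).2) p.2.fin p.2.cof g hg
  have hF : ∀ δ ζ, (α, δ, ζ) ∉ p.1.F := fun δ ζ h => hα (p.2.fdm _ _ _ h).1
  let F : Set (K × K × K) := {x | x.1 = α ∧ x.2.1 ∈ p.1.e ∧ x.2.1 < α ∧ x.2.2 = c x.2.1}
  have hc : IsCnd (⟨p.1.e, p.1.L, insert α p.1.a, p.1.F ∪ F⟩ : Rw K) := by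
    constructor
    · exact p.2.cte
    · exact p.2.cta.insert α
    · exact p.2.lad
    · exact p.2.fin
    · exact p.2.cof
    · exact p.2.ne
    · rintro α' δ ζ (h | ⟨h3, h4, h5, h6⟩)
      · obtain ⟨h3, h4, h5, h6⟩ := p.2.fdm _ _ _ h
        exact ⟨Or.inr h3, h4, h5, h6⟩
      · dsimp only at h3 h4 h5 h6
        rw [h3, h6]
        exact ⟨Or.inl rfl, h4, h5, (h1 δ h4).2⟩
    · rintro α' (rfl | hα') δ hδ hlt
      · exact ⟨c δ, Or.inr ⟨rfl, hδ, hlt, rfl⟩⟩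
      · obtain ⟨ζ, hζ⟩ := p.2.ftt α' hα' δ hδ hlt
        exact ⟨ζ, Or.inl hζ⟩
    · rintro α' δ ζ ζ' (h | ⟨h3, h4, h5, h6⟩) (h' | ⟨h3', h4', h5', h6'⟩)
      · exact p.2.ffn _ _ _ _ h h'
      · dsimp only at h3'
        exact absurd h (h3' ▸ hF _ _)
      · dsimp only at h3
        exact absurd h' (h3 ▸ hF _ _)
      · exact h6.trans h6'.symm
    · rintro α' δ δ' ζ ζ' ξ (h | ⟨h3, h4, h5, h6⟩) (h' | ⟨h3', h4', h5', h6'⟩) hL hL' hl hl'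
      · exact p.2.dis _ _ _ _ _ _ h h' hL hL' hl hl'
      · dsimp only at h3'
        exact absurd h (h3' ▸ hF _ _)
      · dsimp only at h3
        exact absurd h' (h3 ▸ hF _ _)
      · dsimp only at h6 h6'
        rw [h6] at hl
        rw [h6'] at hl'
        exact h2 δ h4 δ' h4' ξ hL hL' hl hl'
  refine ⟨⟨_, hc⟩, ⟨subset_rfl, subset_rfl, subset_insert _ _, subset_union_left,
    fun _ _ _ h => h⟩, Or.inl rfl, rfl, rfl, ?_⟩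
  rintro δ ζ (h | ⟨h3, h4, h5, h6⟩)
  · exact absurd h (hF _ _)
  · dsimp only at h6 h4
    rw [h6]
    exact (h1 δ h4).1

/-- A ladder at a new top ordinal can be added. -/
theorem add_top (p : Cnd K) (δ : K) (hδ : δ ∉ p.1.e) (ha : ∀ α ∈ p.1.a, α ≤ δ) (A : Set K)
    (hne : A.Nonempty) (hA : ∀ ξ ∈ A, ξ < δ) (hf : ∀ ζ < δ, {ξ | ξ ∈ A ∧ ξ ≤ ζ}.Finite)
    (hc : ∀ ζ < δ, ∃ ξ ∈ A, ζ < ξ) : ∃ q ≤ p, δ ∈ q.1.e ∧ ∀ ξ ∈ A, (δ, ξ) ∈ q.1.L := by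
  have hL : ∀ ξ, (δ, ξ) ∉ p.1.L := fun ξ h => hδ (p.2.lad _ _ h).1
  have hF : ∀ α ζ, (α, δ, ζ) ∉ p.1.F := fun α ζ h => hδ (p.2.fdm _ _ _ h).2.1
  let L : Set (K × K) := {x | x.1 = δ ∧ x.2 ∈ A}
  have hC : IsCnd (⟨insert δ p.1.e, p.1.L ∪ L, p.1.a, p.1.F⟩ : Rw K) := by
    constructor
    · exact p.2.cte.insert δ
    · exact p.2.cta
    · rintro δ' ξ (h | ⟨h1, h2⟩)
      · exact ⟨Or.inr (p.2.lad _ _ h).1, (p.2.lad _ _ h).2⟩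
      · dsimp only at h1 h2
        rw [h1]
        exact ⟨Or.inl rfl, hA ξ h2⟩
    · rintro δ' (rfl | hδ') ζ hζ
      · refine (hf ζ hζ).subset ?_
        rintro ξ ⟨h | ⟨h1, h2⟩, h3⟩
        · exact absurd h (hL _)
        · exact ⟨h2, h3⟩
      · refine (p.2.fin δ' hδ' ζ hζ).subset ?_
        rintro ξ ⟨h | ⟨h1, h2⟩, h3⟩
        · exact ⟨h, h3⟩
        · dsimp only at h1
          exact absurd (h1 ▸ hδ') hδ
    · rintro δ' (rfl | hδ') ζ hζ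
      · obtain ⟨ξ, h1, h2⟩ := hc ζ hζ
        exact ⟨ξ, Or.inr ⟨rfl, h1⟩, h2⟩
      · obtain ⟨ξ, h1, h2⟩ := p.2.cof δ' hδ' ζ hζ
        exact ⟨ξ, Or.inl h1, h2⟩
    · rintro δ' (rfl | hδ')
      · obtain ⟨ξ, h1⟩ := hne
        exact ⟨ξ, Or.inr ⟨rfl, h1⟩⟩
      · obtain ⟨ξ, h1⟩ := p.2.ne δ' hδ'
        exact ⟨ξ, Or.inl h1⟩
    · intro α δ' ζ h
      obtain ⟨h1, h2, h3, h4⟩ := p.2.fdm _ _ _ h
      exact ⟨h1, Or.inr h2, h3, h4⟩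
    · rintro α hα δ' (rfl | hδ') hlt
      · exact absurd hlt (not_lt.2 (ha α hα))
      · exact p.2.ftt α hα δ' hδ' hlt
    · exact p.2.ffn
    · rintro α δ₁ δ₂ ζ ζ' ξ h h' (h1 | ⟨h1, -⟩) (h2 | ⟨h2, -⟩) hl hl'
      · exact p.2.dis _ _ _ _ _ _ h h' h1 h2 hl hl'
      · dsimp only at h2
        exact absurd h' (by rw [h2]; exact hF _ _)
      · dsimp only at h1
        exact absurd h (by rw [h1]; exact hF _ _)
      · dsimp only at h1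
        exact absurd h (by rw [h1]; exact hF _ _)
  refine ⟨⟨_, hC⟩, ⟨subset_insert _ _, subset_union_left, subset_rfl, subset_rfl, ?_⟩, Or.inl rfl,
    fun ξ hξ => Or.inr ⟨rfl, hξ⟩⟩
  rintro δ' hδ' ξ (h | ⟨h1, -⟩)
  · exact h
  · dsimp only at h1
    exact absurd (h1 ▸ hδ') hδ

end Pool.Agent.Helper23.EB
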