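import Pool.Agent.Helper23.EB.Cnd

/-!
# Amalgamation and the chain condition
-/

namespace Pool.Agent.Helper23.EB

open Set Cardinal Pool.Agent.Helper96.Fc Pool.Agent.Helper23.PI

set_option linter.unusedSectionVars false

section

variable {K : Type} [LinearOrder K]

/-- the ordinals occurring in a condition -/
def dm (p : Cnd K) : Set K := {x | x ∈ p.1.e ∨ x ∈ p.1.a ∨ (∃ δ, (δ, x) ∈ p.1.L) ∨
  ∃ α δ, (α, δ, x) ∈ p.1.F}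

theorem dm_e {p : Cnd K} {x : K} (h : x ∈ p.1.e) : x ∈ dm p := Or.inl h
theorem dm_a {p : Cnd K} {x : K} (h : x ∈ p.1.a) : x ∈ dm p := Or.inr (Or.inl h)
theorem dm_L {p : Cnd K} {δ x : K} (h : (δ, x) ∈ p.1.L) : x ∈ dm p :=
  Or.inr (Or.inr (Or.inl ⟨δ, h⟩))
theorem dm_F {p : Cnd K} {α δ x : K} (h : (α, δ, x) ∈ p.1.F) : x ∈ dm p :=
  Or.inr (Or.inr (Or.inr ⟨α, δ, h⟩))

theorem ladder_countable (p : Cnd K) {δ : K} (hδ : δ ∈ p.1.e) : {ξ | (δ, ξ) ∈ p.1.L}.Countable := by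
  classical
  let f : K → ℕ := fun ξ => {η | (δ, η) ∈ p.1.L ∧ η ≤ ξ}.ncard
  refine MapsTo.countable_of_injOn (f := f) (t := univ) (fun _ _ => trivial) ?_ countable_univ
  have key : ∀ ξ ξ', (δ, ξ) ∈ p.1.L → (δ, ξ') ∈ p.1.L → ξ < ξ' → f ξ < f ξ' := by
    intro ξ ξ' h h' hlt
    refine ncard_lt_ncard ⟨fun η hη => ⟨hη.1, hη.2.trans hlt.le⟩, ?_⟩
      (p.2.fin δ hδ ξ' (p.2.lad δ ξ' h').2)
    intro hs
    exact absurd (hs ⟨h', le_rfl⟩).2 (not_le.2 hlt)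
  intro ξ hξ ξ' hξ' he
  rcases lt_trichotomy ξ ξ' with h | h | h
  · exact absurd he (key ξ ξ' hξ hξ' h).ne
  · exact h
  · exact absurd he (key ξ' ξ hξ' hξ h).ne'

theorem L_countable (p : Cnd K) : p.1.L.Countable := by
  have h : p.1.L ⊆ ⋃ δ ∈ p.1.e, (fun ξ => (δ, ξ)) '' {ξ | (δ, ξ) ∈ p.1.L} := by
    rintro ⟨δ, ξ⟩ hx
    simp only [mem_iUnion]
    exact ⟨δ, (p.2.lad δ ξ hx).1, ξ, hx, rfl⟩
  exact (p.2.cte.biUnion fun δ hδ => (ladder_countable p hδ).image _).mono h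

theorem F_countable (p : Cnd K) : p.1.F.Countable := by
  refine MapsTo.countable_of_injOn (f := fun x : K × K × K => (x.1, x.2.1))
    (t := p.1.a ×ˢ p.1.e) ?_ ?_ (p.2.cta.prod p.2.cte)
  · rintro ⟨α, δ, ζ⟩ hx
    exact ⟨(p.2.fdm _ _ _ hx).1, (p.2.fdm _ _ _ hx).2.1⟩
  · rintro ⟨α, δ, ζ⟩ hx ⟨α', δ', ζ'⟩ hx' he
    simp only [Prod.mk.injEq] at he
    obtain ⟨rfl, rfl⟩ := he
    rw [p.2.ffn _ _ _ _ hx hx']

theorem dm_countable (p : Cnd K) : (dm p).Countable := by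
  have h : dm p ⊆ p.1.e ∪ p.1.a ∪ (fun x : K × K => x.2) '' p.1.L ∪
      (fun x : K × K × K => x.2.2) '' p.1.F := by
    rintro x (h | h | ⟨δ, h⟩ | ⟨α, δ, h⟩)
    · exact Or.inl (Or.inl (Or.inl h))
    · exact Or.inl (Or.inl (Or.inr h))
    · exact Or.inl (Or.inr ⟨_, h, rfl⟩)
    · exact Or.inr ⟨_, h, rfl⟩
  exact (((p.2.cte.union p.2.cta).union ((L_countable p).image _)).union
    ((F_countable p).image _)).mono h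

/-- the traces of two conditions on `R` agree -/
structure TrEq (p q : Cnd K) (R : Set K) : Prop where
  e : ∀ x ∈ R, x ∈ p.1.e ↔ x ∈ q.1.e
  a : ∀ x ∈ R, x ∈ p.1.a ↔ x ∈ q.1.a
  L : ∀ δ ∈ R, ∀ ξ ∈ R, (δ, ξ) ∈ p.1.L ↔ (δ, ξ) ∈ q.1.L
  F : ∀ α ∈ R, ∀ δ ∈ R, ∀ ζ ∈ R, (α, δ, ζ) ∈ p.1.F ↔ (α, δ, ζ) ∈ q.1.F

theorem TrEq.trans {p q r : Cnd K} {R : Set K} (h : TrEq p q R) (h' : TrEq q r R) : TrEq p r R where
  e x hx := (h.e x hx).trans (h'.e x hx)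
  a x hx := (h.a x hx).trans (h'.a x hx)
  L δ hδ ξ hξ := (h.L δ hδ ξ hξ).trans (h'.L δ hδ ξ hξ)
  F α hα δ hδ ζ hζ := (h.F α hα δ hδ ζ hζ).trans (h'.F α hα δ hδ ζ hζ)

/-- **Amalgamation** of a lower condition `q` and an upper condition `p` -/
theorem amalg {p q : Cnd K} {R : Set K} {γ δ₀ : K} (Rγ : ∀ x ∈ R, x < γ) (γδ : γ ≤ δ₀)
    (qδ : ∀ x ∈ dm q, x ≤ δ₀) (qR : ∀ x ∈ dm q, x ≤ γ → x ∈ R) (pR : ∀ x ∈ dm p, x ≤ δ₀ → x ∈ R)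
    (h : TrEq q p R) : ∃ r, r ≤ q ∧ r ≤ p ∧ TrEq r p R ∧ ∀ x ∈ dm r, x ≤ γ → x ∈ R := by
  classical
  have hqp : ∀ x, x ∈ dm q → x ∈ dm p → x ∈ R := fun x h1 h2 => pR x h2 (qδ x h1)
  have hL1 : ∀ δ ξ, (δ, ξ) ∈ q.1.L → δ ∈ p.1.e → (δ, ξ) ∈ p.1.L := by
    intro δ ξ h1 h2
    have h3 := q.2.lad _ _ h1
    have h4 := hqp δ (dm_e h3.1) (dm_e h2)
    exact (h.L δ h4 ξ (qR ξ (dm_L h1) (h3.2.trans (Rγ δ h4)).le)).1 h1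
  have hL2 : ∀ δ ξ, (δ, ξ) ∈ p.1.L → δ ∈ q.1.e → (δ, ξ) ∈ q.1.L := by
    intro δ ξ h1 h2
    have h3 := p.2.lad _ _ h1
    have h4 := hqp δ (dm_e h2) (dm_e h3.1)
    exact (h.L δ h4 ξ (pR ξ (dm_L h1) ((h3.2.trans (Rγ δ h4)).le.trans γδ))).2 h1
  have hF1 : ∀ α δ ζ, (α, δ, ζ) ∈ q.1.F → α ∈ p.1.a → (α, δ, ζ) ∈ p.1.F := by
    intro α δ ζ h1 h2
    obtain ⟨h3, h4, h5, h6⟩ := q.2.fdm _ _ _ h1
    have h7 := hqp α (dm_a h3) (dm_a h2)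
    have h8 : δ ∈ R := qR δ (dm_e h4) (h5.trans (Rγ α h7)).le
    have h9 : ζ ∈ R := qR ζ (dm_F h1) (h6.trans (Rγ δ h8)).le
    exact (h.F α h7 δ h8 ζ h9).1 h1
  have hg : ∀ δ : K, ∃ g, (δ ∈ q.1.e → γ < δ → γ < g) ∧ (δ ∈ q.1.e → g < δ) := by
    intro δ
    by_cases h1 : δ ∈ q.1.e
    · by_cases h2 : γ < δ
      · obtain ⟨ξ, h3, h4⟩ := exists_pt q h1 h2
        exact ⟨ξ, fun _ _ => h3, fun _ => h4⟩
      · obtain ⟨ξ, h3⟩ := q.2.ne δ h1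
        exact ⟨ξ, fun _ h4 => absurd h4 h2, fun _ => (q.2.lad _ _ h3).2⟩
    · exact ⟨δ, fun h2 => absurd h2 h1, fun h2 => absurd h2 h1⟩
  choose g hg1 hg2 using hg
  obtain ⟨c, hc1, hc2⟩ := exists_cut q.2.cte (fun δ ξ h => (q.2.lad δ ξ h).2) q.2.fin q.2.cof g
    (fun δ hδ => hg2 δ hδ)
  have hcγ : ∀ δ ∈ q.1.e, δ ∉ R → γ < c δ := by
    intro δ h1 h2
    have h3 : γ < δ := not_le.1 fun h3 => h2 (qR δ (dm_e h1) h3)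
    exact (hg1 δ h1 h3).trans_le (hc1 δ h1).1
  have hpγ : ∀ x ∈ dm p, x ∉ R → δ₀ < x := fun x h1 h2 => not_le.1 fun h3 => h2 (pR x h1 h3)
  let F : Set (K × K × K) := {x | x.1 ∈ p.1.a ∧ x.1 ∉ R ∧ x.2.1 ∈ q.1.e ∧ x.2.1 ∉ R ∧
    x.2.2 = c x.2.1}
  have hLq : ∀ δ ξ, (δ, ξ) ∈ q.1.L ∪ p.1.L → δ ∈ q.1.e → (δ, ξ) ∈ q.1.L := by
    rintro δ ξ (h1 | h1) h2
    · exact h1
    · exact hL2 _ _ h1 h2
  have hLp : ∀ δ ξ, (δ, ξ) ∈ q.1.L ∪ p.1.L → δ ∈ p.1.e → (δ, ξ) ∈ p.1.L := by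
    rintro δ ξ (h1 | h1) h2
    · exact hL1 _ _ h1 h2
    · exact h1
  have hC : IsCnd (⟨q.1.e ∪ p.1.e, q.1.L ∪ p.1.L, q.1.a ∪ p.1.a, q.1.F ∪ p.1.F ∪ F⟩ : Rw K) := by
    constructor
    · exact q.2.cte.union p.2.cte
    · exact q.2.cta.union p.2.cta
    · rintro δ ξ (h1 | h1)
      · exact ⟨Or.inl (q.2.lad _ _ h1).1, (q.2.lad _ _ h1).2⟩
      · exact ⟨Or.inr (p.2.lad _ _ h1).1, (p.2.lad _ _ h1).2⟩
    · rintro δ (hδ | hδ) ζ hζ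
      · exact (q.2.fin δ hδ ζ hζ).subset fun ξ hξ => ⟨hLq _ _ hξ.1 hδ, hξ.2⟩
      · exact (p.2.fin δ hδ ζ hζ).subset fun ξ hξ => ⟨hLp _ _ hξ.1 hδ, hξ.2⟩
    · rintro δ (hδ | hδ) ζ hζ
      · obtain ⟨ξ, h1, h2⟩ := q.2.cof δ hδ ζ hζ
        exact ⟨ξ, Or.inl h1, h2⟩
      · obtain ⟨ξ, h1, h2⟩ := p.2.cof δ hδ ζ hζ
        exact ⟨ξ, Or.inr h1, h2⟩
    · rintro δ (hδ | hδ)
      · obtain ⟨ξ, h1⟩ := q.2.ne δ hδ
        exact ⟨ξ, Or.inl h1⟩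
      · obtain ⟨ξ, h1⟩ := p.2.ne δ hδ
        exact ⟨ξ, Or.inr h1⟩
    · rintro α δ ζ ((h1 | h1) | ⟨h1, h2, h3, h4, h5⟩)
      · obtain ⟨h3, h4, h5, h6⟩ := q.2.fdm _ _ _ h1
        exact ⟨Or.inl h3, Or.inl h4, h5, h6⟩
      · obtain ⟨h3, h4, h5, h6⟩ := p.2.fdm _ _ _ h1
        exact ⟨Or.inr h3, Or.inr h4, h5, h6⟩
      · dsimp only at h1 h2 h3 h4 h5
        refine ⟨Or.inr h1, Or.inl h3, (qδ δ (dm_e h3)).trans_lt (hpγ α (dm_a h1) h2), ?_⟩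
        rw [h5]
        exact (hc1 δ h3).2
    · have key : ∀ α ∈ p.1.a, ∀ δ ∈ q.1.e, δ < α →
          ∃ ζ, (α, δ, ζ) ∈ q.1.F ∪ p.1.F ∪ F := by
        intro α hα δ hδ hlt
        by_cases h1 : δ ∈ R
        · obtain ⟨ζ, hζ⟩ := p.2.ftt α hα δ ((h.e δ h1).1 hδ) hlt
          exact ⟨ζ, Or.inl (Or.inr hζ)⟩
        · by_cases h2 : α ∈ R
          · exact absurd (qR δ (dm_e hδ) (hlt.trans (Rγ α h2)).le) h1
          · exact ⟨c δ, Or.inr ⟨hα, h2, hδ, h1, rfl⟩⟩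
      rintro α (hα | hα) δ (hδ | hδ) hlt
      · obtain ⟨ζ, hζ⟩ := q.2.ftt α hα δ hδ hlt
        exact ⟨ζ, Or.inl (Or.inl hζ)⟩
      · have h1 : δ ∈ R := pR δ (dm_e hδ) (hlt.le.trans (qδ α (dm_a hα)))
        obtain ⟨ζ, hζ⟩ := q.2.ftt α hα δ ((h.e δ h1).2 hδ) hlt
        exact ⟨ζ, Or.inl (Or.inl hζ)⟩
      · exact key α hα δ hδ hlt
      · obtain ⟨ζ, hζ⟩ := p.2.ftt α hα δ hδ hlt
        exact ⟨ζ, Or.inl (Or.inr hζ)⟩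
    · rintro α δ ζ ζ' ((h1 | h1) | ⟨h1, h2, h3, h4, h5⟩) ((h1' | h1') | ⟨h1', h2', h3', h4', h5'⟩)
      · exact q.2.ffn _ _ _ _ h1 h1'
      · exact p.2.ffn _ _ _ _ (hF1 _ _ _ h1 (p.2.fdm _ _ _ h1').1) h1'
      · exact absurd (hqp α (dm_a (q.2.fdm _ _ _ h1).1) (dm_a h1')) h2'
      · exact p.2.ffn _ _ _ _ h1 (hF1 _ _ _ h1' (p.2.fdm _ _ _ h1).1)
      · exact p.2.ffn _ _ _ _ h1 h1'
      · exact absurd (hqp δ (dm_e h3') (dm_e (p.2.fdm _ _ _ h1).2.1)) h4'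
      · exact absurd (hqp α (dm_a (q.2.fdm _ _ _ h1').1) (dm_a h1)) h2
      · exact absurd (hqp δ (dm_e h3) (dm_e (p.2.fdm _ _ _ h1').2.1)) h4
      · exact h5.trans h5'.symm
    · -- dis
      have keyp : ∀ α δ δ' ζ ζ' ξ, (α, δ, ζ) ∈ p.1.F → (α, δ', ζ') ∈ p.1.F →
          (δ, ξ) ∈ q.1.L ∪ p.1.L → (δ', ξ) ∈ q.1.L ∪ p.1.L → ζ ≤ ξ → ζ' ≤ ξ → δ = δ' := by
        intro α δ δ' ζ ζ' ξ h1 h2 h3 h4 h5 h6
        exact p.2.dis _ _ _ _ _ _ h1 h2 (hLp _ _ h3 (p.2.fdm _ _ _ h1).2.1)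
          (hLp _ _ h4 (p.2.fdm _ _ _ h2).2.1) h5 h6
      have keyx : ∀ α δ δ' ζ ζ' ξ, (α, δ, ζ) ∈ p.1.F → (α, δ', ζ') ∈ F →
          (δ, ξ) ∈ q.1.L ∪ p.1.L → (δ', ξ) ∈ q.1.L ∪ p.1.L → ζ' ≤ ξ → False := by
        rintro α δ δ' ζ ζ' ξ h1 ⟨h2, h3, h4, h5, h6⟩ h7 h8 h9
        dsimp only at h2 h3 h4 h5 h6
        have h10 := hLp _ _ h7 (p.2.fdm _ _ _ h1).2.1
        have h11 := hLq _ _ h8 h4
        have h12 := Rγ ξ (hqp ξ (dm_L h11) (dm_L h10))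
        rw [h6] at h9
        exact absurd (h12.trans_le ((hcγ δ' h4 h5).le.trans h9)) (lt_irrefl _)
      rintro α δ δ' ζ ζ' ξ ((h1 | h1) | h1) ((h2 | h2) | h2) h3 h4 h5 h6
      · exact q.2.dis _ _ _ _ _ _ h1 h2 (hLq _ _ h3 (q.2.fdm _ _ _ h1).2.1)
          (hLq _ _ h4 (q.2.fdm _ _ _ h2).2.1) h5 h6
      · exact keyp _ _ _ _ _ _ (hF1 _ _ _ h1 (p.2.fdm _ _ _ h2).1) h2 h3 h4 h5 h6
      · exact absurd (hqp α (dm_a (q.2.fdm _ _ _ h1).1) (dm_a h2.1)) h2.2.1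
      · exact keyp _ _ _ _ _ _ h1 (hF1 _ _ _ h2 (p.2.fdm _ _ _ h1).1) h3 h4 h5 h6
      · exact keyp _ _ _ _ _ _ h1 h2 h3 h4 h5 h6
      · exact (keyx _ _ _ _ _ _ h1 h2 h3 h4 h6).elim
      · exact absurd (hqp α (dm_a (q.2.fdm _ _ _ h2).1) (dm_a h1.1)) h1.2.1
      · exact (keyx _ _ _ _ _ _ h2 h1 h4 h3 h5).elim
      · obtain ⟨a1, a2, a3, a4, a5⟩ := h1
        obtain ⟨b1, b2, b3, b4, b5⟩ := h2
        dsimp only at a1 a2 a3 a4 a5 b1 b2 b3 b4 b5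
        rw [a5] at h5
        rw [b5] at h6
        exact hc2 δ a3 δ' b3 ξ (hLq _ _ h3 a3) (hLq _ _ h4 b3) h5 h6
  refine ⟨⟨_, hC⟩, ⟨subset_union_left, subset_union_left, subset_union_left,
    subset_union_left.trans subset_union_left, fun δ hδ ξ hξ => hLq _ _ hξ hδ⟩,
    ⟨subset_union_right, subset_union_right, subset_union_right,
      subset_union_right.trans subset_union_left, fun δ hδ ξ hξ => hLp _ _ hξ hδ⟩, ?_, ?_⟩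
  · constructor
    · intro x hx
      exact ⟨fun h1 => h1.elim (h.e x hx).1 id, Or.inr⟩
    · intro x hx
      exact ⟨fun h1 => h1.elim (h.a x hx).1 id, Or.inr⟩
    · intro δ hδ ξ hξ
      exact ⟨fun h1 => h1.elim (h.L δ hδ ξ hξ).1 id, Or.inr⟩
    · intro α hα δ hδ ζ hζ
      refine ⟨?_, fun h1 => Or.inl (Or.inr h1)⟩
      rintro ((h1 | h1) | h1)
      · exact (h.F α hα δ hδ ζ hζ).1 h1
      · exact h1
      · exact absurd hα h1.2.1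
  · rintro x ((h1 | h1) | (h1 | h1) | ⟨δ, (h1 | h1)⟩ | ⟨α, δ, ((h1 | h1) | h1)⟩) hx
    · exact qR x (dm_e h1) hx
    · exact pR x (dm_e h1) (hx.trans γδ)
    · exact qR x (dm_a h1) hx
    · exact pR x (dm_a h1) (hx.trans γδ)
    · exact qR x (dm_L h1) hx
    · exact pR x (dm_L h1) (hx.trans γδ)
    · exact qR x (dm_F h1) hx
    · exact pR x (dm_F h1) (hx.trans γδ)
    · obtain ⟨a1, a2, a3, a4, a5⟩ := h1
      dsimp only at a3 a4 a5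
      rw [a5] at hx
      exact absurd hx (not_le.2 (hcγ δ a3 a4))

/-- the trace of a condition on `R` -/
def tr (R : Set K) (p : Cnd K) : Set K × Set (K × K) × Set K × Set (K × K × K) :=
  ({x ∈ p.1.e | x ∈ R}, {x ∈ p.1.L | x.1 ∈ R ∧ x.2 ∈ R}, {x ∈ p.1.a | x ∈ R},
    {x ∈ p.1.F | x.1 ∈ R ∧ x.2.1 ∈ R ∧ x.2.2 ∈ R})

theorem tr_eq {R : Set K} {p q : Cnd K} (h : tr R p = tr R q) : TrEq p q R := by
  simp only [tr, Prod.mk.injEq] at h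
  obtain ⟨h1, h2, h3, h4⟩ := h
  constructor
  · intro x hx
    have h := Set.ext_iff.1 h1 x
    simpa only [mem_ofPred_eq, hx, and_true] using h
  · intro x hx
    have h := Set.ext_iff.1 h3 x
    simpa only [mem_ofPred_eq, hx, and_true] using h
  · intro δ hδ ξ hξ
    have h := Set.ext_iff.1 h2 (δ, ξ)
    simpa only [mem_ofPred_eq, hδ, hξ, and_true] using h
  · intro α hα δ hδ ζ hζ
    have h := Set.ext_iff.1 h4 (α, δ, ζ)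
    simpa only [mem_ofPred_eq, hα, hδ, hζ, and_true] using h

theorem tr_small {R : Set K} (hR : R.Countable) {C : Type} (f : C → Cnd K) :
    Sm (range fun x => tr R (f x)) := by
  have h1 := Sm.of_countable hR
  refine Sm.mono (B := {X : Set K | X ⊆ R ∧ X.Countable} ×ˢ
    {X : Set (K × K) | X ⊆ R ×ˢ R ∧ X.Countable} ×ˢ {X : Set K | X ⊆ R ∧ X.Countable} ×ˢ
    {X : Set (K × K × K) | X ⊆ R ×ˢ (R ×ˢ R) ∧ X.Countable}) ?_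
    (h1.pow.prod ((h1.prod h1).pow.prod (h1.pow.prod (h1.prod (h1.prod h1)).pow)))
  rintro _ ⟨x, rfl⟩
  exact ⟨⟨fun y hy => hy.2, (f x).2.cte.mono fun y hy => hy.1⟩,
    ⟨fun y hy => ⟨hy.2.1, hy.2.2⟩, (L_countable (f x)).mono fun y hy => hy.1⟩,
    ⟨fun y hy => hy.2, (f x).2.cta.mono fun y hy => hy.1⟩,
    ⟨fun y hy => ⟨hy.2.1, hy.2.2.1, hy.2.2.2⟩, (F_countable (f x)).mono fun y hy => hy.1⟩⟩

end

/-- the cardinal `(2 ^ ω)⁺` as a type -/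
abbrev KK : Type := (Order.succ 𝔠 : Cardinal.{0}).ord.ToType

theorem sm_lt {α : Type} {A : Set α} (h : Sm A) : #A < Order.succ 𝔠 := Order.lt_succ_iff.2 h

theorem ct_lt {α : Type} {A : Set α} (h : A.Countable) : #A < Order.succ 𝔠 :=
  sm_lt (Sm.of_countable h)

theorem ct_one {α : Type} {A : Set α} : A.Countable ↔ #A < aleph 1 := by
  rw [← le_aleph0_iff_set_countable, ← Order.lt_succ_iff, ← aleph_one_eq]

/-- countable sets are bounded -/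
theorem ct_bd {A : Set KK} (h : A.Countable) : ∃ β : KK, ∀ x ∈ A, x < β := by
  obtain ⟨β, hβ⟩ := exists_bound cls_continuum.rθ (ct_lt h) (fun x : A => x.1)
  exact ⟨β, fun x hx => hβ ⟨x, hx⟩⟩

/-- a form of the Delta-system lemma -/
theorem root_Cnd (f : KK → Cnd KK) (D : KK → Set KK) (hD : ∀ i, (D i).Countable) : ∃ R : Set KK, R.Countable ∧ ∃ i₀,
      ∀ β, (∀ x ∈ R, x < β) → ∃ i > β, D i ∩ Iic β = R ∧ TrEq (f i) (f i₀) R := by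
  obtain ⟨R, hR, h⟩ := root2 cls_continuum D fun i => ct_one.1 (hD i)
  have hRc : R.Countable := ct_one.2 hR
  obtain ⟨c, hc⟩ := h (fun i => tr R (f i)) (sm_lt (tr_small hRc f))
  have hc' : ∀ β, (∀ x ∈ R, x < β) → ∃ i > β, D i ∩ Iic β = R ∧ tr R (f i) = c := by
    intro β hβ
    exact hc (Iic β) (mk_Iic_lt cls_continuum.rθ.aleph0_le β) (fun x hx => (hβ x hx).le) β
  obtain ⟨β, hβ⟩ := ct_bd hRc
  obtain ⟨i₀, -, -, hi₀⟩ := hc' β hβ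
  refine ⟨R, hRc, i₀, fun β hβ => ?_⟩
  obtain ⟨i, hi, h1, h2⟩ := hc' β hβ
  exact ⟨i, hi, h1, tr_eq (h2.trans hi₀.symm)⟩

theorem TrEq.symm {K : Type} [LinearOrder K] {p q : Cnd K} {R : Set K} (h : TrEq p q R) :
    TrEq q p R where
  e x hx := (h.e x hx).symm
  a x hx := (h.a x hx).symm
  L δ hδ ξ hξ := (h.L δ hδ ξ hξ).symm
  F α hα δ hδ ζ hζ := (h.F α hα δ hδ ζ hζ).symm

/-- **The chain condition.** -/
theorem cc_Cnd : CC (Cnd KK) (Order.succ 𝔠) := by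
  intro A hA
  by_contra hcon
  rw [not_lt] at hcon
  have h1 : #KK ≤ #A := by rw [mk_ord_toType]; exact hcon
  obtain ⟨f⟩ := h1
  obtain ⟨R, hR, i₀, h⟩ := root_Cnd (fun i => (f i).1) (fun i => dm (f i).1)
    (fun i => dm_countable _)
  obtain ⟨γ, hγ⟩ := ct_bd hR
  obtain ⟨i, hi, hDi, hti⟩ := h γ hγ
  obtain ⟨δ₀, hδ₀⟩ := ct_bd (((dm_countable (f i).1).insert γ).insert i)
  obtain ⟨j, hj, hDj, htj⟩ := h δ₀ fun x hx => (hγ x hx).trans (hδ₀ γ (Or.inr (Or.inl rfl)))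
  have hij : i < j := (hδ₀ i (Or.inl rfl)).trans hj
  obtain ⟨r, hr1, hr2, -, -⟩ := amalg (p := (f j).1) (q := (f i).1) hγ
    (hδ₀ γ (Or.inr (Or.inl rfl))).le (fun x hx => (hδ₀ x (Or.inr (Or.inr hx))).le)
    (fun x hx hxγ => by rw [← hDi]; exact ⟨hx, hxγ⟩)
    (fun x hx hxγ => by rw [← hDj]; exact ⟨hx, hxγ⟩) (hti.trans htj.symm)
  refine hA _ (f i).2 _ (f j).2 ?_ ⟨r, hr1, hr2⟩
  intro he
  exact hij.ne (f.injective (Subtype.ext he))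

end Pool.Agent.Helper23.EB
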