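import Pool.Agent.Helper23.EB.Cnd2

/-!
# The forced ladder system
-/

namespace Pool.Agent.Helper23.EB

open Set Cardinal Pool.Agent.Helper96.Fc Pool.Agent.Helper23.PI

set_option linter.unusedSectionVars false

section

variable {K : Type} [LinearOrder K]

/-- regularization -/
def rg {P : Type} [Preorder P] (S : Set P) : Set P := {p | ∀ q ≤ p, ∃ s ≤ q, s ∈ S}

theorem rg_reg {P : Type} [Preorder P] (S : Set P) : RegSet (rg S) where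
  down _ hp _ hq r hr := hp r (hr.trans hq)
  dense p h q hq := by
    obtain ⟨s, hs, h1⟩ := h q hq
    obtain ⟨t, ht, h2⟩ := h1 s le_rfl
    exact ⟨t, ht.trans hs, h2⟩

/-- the conditions forcing `δ ∈ E` -/
def HE (δ : K) : Set (Cnd K) := rg {p | δ ∈ p.1.e}

/-- the conditions forcing `ξ ∈ A_δ` -/
def HL (δ ξ : K) : Set (Cnd K) := rg {p | (δ, ξ) ∈ p.1.L}

/-- the conditions forcing `ξ ∈ T_{α,δ}` -/
def HT (α δ ξ : K) : Set (Cnd K) := rg {p | ∃ ζ, (α, δ, ζ) ∈ p.1.F ∧ (δ, ξ) ∈ p.1.L ∧ ζ ≤ ξ}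

theorem mem_HE {δ : K} {p : Cnd K} (h : δ ∈ p.1.e) : p ∈ HE δ := fun q hq => ⟨q, le_rfl, hq.1 h⟩

theorem mem_HL {δ ξ : K} {p : Cnd K} (h : (δ, ξ) ∈ p.1.L) : p ∈ HL δ ξ :=
  fun q hq => ⟨q, le_rfl, hq.2.1 h⟩

/-- a condition knows its ladders -/
theorem HL_mem {δ ξ : K} {p q : Cnd K} (hp : δ ∈ p.1.e) (hq : q ≤ p) (h : q ∈ HL δ ξ) :
    (δ, ξ) ∈ p.1.L := by
  obtain ⟨s, hs, h1⟩ := h q le_rfl
  exact (hs.trans hq).2.2.2.2 δ hp ξ h1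

end

/-- one condition deciding bounds for all `m` -/
theorem all_bd {r : Cnd KK} {Ψ : Cnd KK → KK → ℕ → KK → Prop}
    (ha : ∀ p ≤ r, ∀ ξ m, ∃ q ≤ p, ∃ β : KK, ∀ q' ≤ q, ∀ δ, Ψ q' ξ m δ → δ ≤ β) (i : KK) :
    ∃ p ≤ r, ∃ β : KK, ∀ m, ∀ q ≤ p, ∀ δ, Ψ q i m δ → δ ≤ β := by
  classical
  have h1 : ∀ (m : ℕ) (x : {p : Cnd KK // p ≤ r}), ∃ y : {p : Cnd KK // p ≤ r}, y.1 ≤ x.1 ∧
      ∃ β : KK, ∀ q ≤ y.1, ∀ δ, Ψ q i m δ → δ ≤ β := by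
    rintro m ⟨x, hx⟩
    obtain ⟨q, hq, β, h⟩ := ha x hx i m
    exact ⟨⟨q, hq.trans hx⟩, hq, β, h⟩
  choose g hg1 β hβ using h1
  let y : ℕ → {p : Cnd KK // p ≤ r} := fun n => Nat.rec ⟨r, le_rfl⟩ (fun n y => g n y) n
  have hy : ∀ n, y (n + 1) = g n (y n) := fun n => rfl
  have hA : Antitone (fun n => (y n).1) := antitone_nat_of_succ_le fun n => by
    rw [hy]; exact hg1 n _
  obtain ⟨b, hb⟩ := ct_bd (countable_range fun m => β m (y m))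
  refine ⟨lm _ hA, (lm_le _ hA 0).trans (y 0).2, b, ?_⟩
  intro m q hq δ hΨ
  have h2 : q ≤ (y (m + 1)).1 := hq.trans (lm_le _ hA (m + 1))
  rw [hy] at h2
  exact (hβ m (y m) q h2 δ hΨ).trans (hb _ ⟨m, rfl⟩).le

/-- **The system is not `σ`-free.** -/
theorem core_nf (r : Cnd KK) (Ψ : Cnd KK → KK → ℕ → KK → Prop)
    (ha : ∀ p ≤ r, ∀ ξ m, ∃ q ≤ p, ∃ β : KK, ∀ q' ≤ q, ∀ δ, Ψ q' ξ m δ → δ ≤ β)
    (hb : ∀ p ≤ r, ∀ δ, p ∈ HE δ → ∃ q ≤ p, ∃ (m : ℕ) (F : Set KK), F.Finite ∧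
      ∀ ξ, ξ ∉ F → ∀ q' ≤ q, q' ∈ HL δ ξ → Ψ q' ξ m δ) : False := by
  classical
  choose p hpr β hβ using all_bd ha
  obtain ⟨R, hR, i₀, h⟩ := root_Cnd p (fun i => insert i (insert (β i) (dm (p i))))
    (fun i => ((dm_countable (p i)).insert _).insert _)
  obtain ⟨γ, hγ⟩ := ct_bd hR
  let St : Type := {x : Cnd KK × KK // x.1 ≤ p x.2 ∧ TrEq x.1 (p i₀) R ∧
    ∀ y ∈ dm x.1, y ≤ γ → y ∈ R}
  have hstep : ∀ x : St, ∃ y : St, y.1.1 ≤ x.1.1 ∧ (∀ z ∈ dm x.1.1, z < y.1.2) ∧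
      x.1.2 < y.1.2 ∧ β x.1.2 < y.1.2 := by
    rintro ⟨⟨q, i⟩, h1, h2, h3⟩
    obtain ⟨B, hB⟩ := ct_bd ((((dm_countable q).insert γ).insert (β i)).insert i)
    have hBγ : γ < B := hB γ (Or.inr (Or.inr (Or.inl rfl)))
    obtain ⟨j, hj, hDj, htj⟩ := h B fun x hx => (hγ x hx).trans hBγ
    obtain ⟨s, hs1, hs2, hs3, hs4⟩ := amalg (p := p j) (q := q) hγ hBγ.le
      (fun x hx => (hB x (Or.inr (Or.inr (Or.inr hx)))).le) h3
      (fun x hx hxB => by rw [← hDj]; exact ⟨Or.inr (Or.inr hx), hxB⟩) (h2.trans htj.symm)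
    exact ⟨⟨(s, j), hs2, hs3.trans htj, hs4⟩, hs1,
      fun z hz => (hB z (Or.inr (Or.inr (Or.inr hz)))).trans hj,
      (hB i (Or.inl rfl)).trans hj, (hB (β i) (Or.inr (Or.inl rfl))).trans hj⟩
  choose nxt hn1 hn2 hn3 hn4 using hstep
  obtain ⟨j₀, hj₀, hDj₀, htj₀⟩ := h γ hγ
  let x₀ : St := ⟨(p j₀, j₀), le_rfl, htj₀, fun y hy hyγ => by
    rw [← hDj₀]; exact ⟨Or.inr (Or.inr hy), hyγ⟩⟩
  let z : ℕ → St := fun n => Nat.rec x₀ (fun _ y => nxt y) n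
  have hz : ∀ n, z (n + 1) = nxt (z n) := fun n => rfl
  let ix : ℕ → KK := fun n => (z n).1.2
  have hA : Antitone (fun n => (z n).1.1) := antitone_nat_of_succ_le fun n => by
    rw [hz]; exact hn1 _
  have hdm : ∀ n, ∀ x ∈ dm (z n).1.1, x < ix (n + 1) := fun n x hx => by
    change x < (z (n + 1)).1.2
    rw [hz]; exact hn2 _ x hx
  have hix : StrictMono ix := strictMono_nat_of_lt_succ fun n => by
    change (z n).1.2 < (z (n + 1)).1.2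
    rw [hz]; exact hn3 _
  have hβx : ∀ n, β (ix n) < ix (n + 1) := fun n => by
    change β (z n).1.2 < (z (n + 1)).1.2
    rw [hz]; exact hn4 _
  -- the supremum
  have hub : {b : KK | ∀ n, ix n < b}.Nonempty := by
    obtain ⟨b, hb⟩ := ct_bd (countable_range ix)
    exact ⟨b, fun n => hb _ ⟨n, rfl⟩⟩
  let δ : KK := wellFounded_lt.min _ hub
  have hδ1 : ∀ n, ix n < δ := wellFounded_lt.min_mem _ hub
  have hδ2 : ∀ ζ < δ, ∃ n, ζ < ix n := by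
    intro ζ hζ
    by_contra hcon
    push Not at hcon
    refine wellFounded_lt.not_lt_min {b : KK | ∀ n, ix n < b} (x := ζ) ?_ hζ
    intro n
    exact (hix n.lt_succ_self).trans_le (hcon (n + 1))
  have hdmδ : ∀ n, ∀ x ∈ dm (z n).1.1, x < δ := fun n x hx => (hdm n x hx).trans (hδ1 (n + 1))
  obtain ⟨q, hq, hqe, hqL⟩ := add_top (lm _ hA) δ
    (by
      intro hmem
      obtain ⟨n, hn⟩ := mem_iUnion.1 hmem
      exact lt_irrefl _ (hdmδ n δ (dm_e hn)))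
    (by
      intro α hα
      obtain ⟨n, hn⟩ := mem_iUnion.1 hα
      exact (hdmδ n α (dm_a hn)).le)
    (range ix) ⟨_, 0, rfl⟩
    (by rintro _ ⟨n, rfl⟩; exact hδ1 n)
    (by
      intro ζ hζ
      obtain ⟨k, hk⟩ := hδ2 ζ hζ
      refine ((Set.finite_lt_nat k).image ix).subset ?_
      rintro _ ⟨⟨n, rfl⟩, hn⟩
      exact ⟨n, hix.lt_iff_lt.1 (hn.trans_lt hk), rfl⟩)
    (by
      intro ζ hζ
      obtain ⟨k, hk⟩ := hδ2 ζ hζ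
      exact ⟨ix k, ⟨k, rfl⟩, hk⟩)
  have hqn : ∀ n, q ≤ p (ix n) := fun n => (hq.trans (lm_le _ hA n)).trans (z n).2.1
  have hqr : q ≤ r := (hqn 0).trans (hpr _)
  obtain ⟨q', hq', m, F, hF, h4⟩ := hb q hqr δ (mem_HE hqe)
  obtain ⟨k, hk⟩ : ∃ k, ix k ∉ F := by
    by_contra hcon
    push Not at hcon
    exact Set.infinite_range_of_injective hix.injective
      (hF.subset (by rintro _ ⟨n, rfl⟩; exact hcon n))
  have h5 := h4 (ix k) hk q' le_rfl ((rg_reg _).down q (mem_HL (hqL _ ⟨k, rfl⟩)) q' hq')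
  have h6 := hβ (ix k) m q' (hq'.trans (hqn k)) δ h5
  exact absurd (h6.trans_lt ((hβx k).trans (hδ1 (k + 1)))) (lt_irrefl _)

/-- **The forced ladder system.** -/
theorem ladF : LadF (P := Cnd KK) (HE (K := KK)) HL HT where
  regE _ := rg_reg _
  regL _ _ := rg_reg _
  regT _ _ _ := rg_reg _
  L1 δ ξ p hp := by
    refine ⟨fun q hq => ?_, ?_⟩
    · obtain ⟨s, hs, h1⟩ := hp q hq
      exact ⟨s, hs, (s.2.lad _ _ h1).1⟩
    · obtain ⟨s, hs, h1⟩ := hp p le_rfl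
      exact (s.2.lad _ _ h1).2
  L2 δ p hp ζ hζ := by
    obtain ⟨q, hq, h1⟩ := hp p le_rfl
    refine ⟨q, hq, _, q.2.fin δ h1 ζ hζ, fun ξ hξ q' hq' h2 => ⟨HL_mem h1 hq' h2, hξ.le⟩⟩
  T1 α δ ξ p hp q hq := by
    obtain ⟨s, hs, ζ, -, h2, -⟩ := hp q hq
    exact ⟨s, hs, h2⟩
  T2 α δ hδα p hp := by
    obtain ⟨q₀, hq₀, h1⟩ := hp p le_rfl
    obtain ⟨q, hq, hδq, hαq⟩ : ∃ q ≤ q₀, δ ∈ q.1.e ∧ α ∈ q.1.a := by
      by_cases hα : α ∈ q₀.1.a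
      · exact ⟨q₀, le_rfl, h1, hα⟩
      · have hg : ∀ δ : KK, ∃ g, δ ∈ q₀.1.e → g < δ := by
          intro δ
          by_cases h2 : δ ∈ q₀.1.e
          · obtain ⟨ξ, h3⟩ := q₀.2.ne δ h2
            exact ⟨ξ, fun _ => (q₀.2.lad _ _ h3).2⟩
          · exact ⟨δ, fun h3 => absurd h3 h2⟩
        choose g hg using hg
        obtain ⟨q, hq, h3, h4, -, -⟩ := add_a q₀ α hα g hg
        exact ⟨q, hq, h4 ▸ h1, h3⟩
    obtain ⟨ζ, hζ⟩ := q.2.ftt α hαq δ hδq hδα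
    refine ⟨q, hq.trans hq₀, _, q.2.fin δ hδq ζ (q.2.fdm _ _ _ hζ).2.2.2, ?_⟩
    intro ξ hξ q' hq' h2 t ht
    have h3 := HL_mem hδq hq' h2
    have h4 : ζ ≤ ξ := by
      by_contra h5
      exact hξ ⟨h3, (not_le.1 h5).le⟩
    exact ⟨t, le_rfl, ζ, (ht.trans hq').2.2.2.1 hζ, (ht.trans hq').2.1 h3, h4⟩
  T3 α δ δ' ξ _ _ p hp hp' := by
    obtain ⟨s, hs, ζ, h1, h2, h3⟩ := hp p le_rfl
    obtain ⟨s', hs', ζ', h1', h2', h3'⟩ := hp' s hs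
    exact s'.2.dis _ _ _ _ _ _ (hs'.2.2.2.1 h1) h1' (hs'.2.1 h2) h2' h3 h3'
  nf r Ψ _ ha hb := core_nf r Ψ ha hb

end Pool.Agent.Helper23.EB
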