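import Pool.Agent.Helper96.Fc.Defs

/-!
# Eberlein compact spaces inside a transitive model of ZFC
-/

namespace Pool.Agent.Helper23.EB

open Pool.Agent.Helper96.Fc

/-- the natural number `n` as a set -/
noncomputable def nat (n : ℕ) : ZFSet.{0} := Ordinal.toZFSet n

/-- the set `ω` -/
noncomputable def om : ZFSet.{0} := Ordinal.toZFSet Ordinal.omega0

/-- the `n`-th rational number, in a fixed enumeration without repetitions of all rational numbers -/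
noncomputable def rt (n : ℕ) : ℝ := (((Denumerable.eqv ℚ).symm n : ℚ) : ℝ)

/-- Data of a topological space: the set `x` of the points and the set `o` of the open sets. -/
structure Sp where
  /-- the points -/
  x : ZFSet.{0}
  /-- the open sets -/
  o : ZFSet.{0}

/-- In `N`, `X` is a compact Hausdorff space. -/
structure IsComp (N : Set ZFSet.{0}) (X : Sp) : Prop where
  x_mem : X.x ∈ N
  o_mem : X.o ∈ N
  sub : ∀ u ∈ X.o, u ⊆ X.x
  top : X.x ∈ X.o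
  inter : ∀ u ∈ X.o, ∀ v ∈ X.o, u ∩ v ∈ X.o
  union : ∀ s ∈ N, s ⊆ X.o → ZFSet.sUnion s ∈ X.o
  haus : ∀ x ∈ X.x, ∀ y ∈ X.x, x ≠ y → ∃ u ∈ X.o, ∃ v ∈ X.o, x ∈ u ∧ y ∈ v ∧ ∀ z ∈ u, z ∉ v
  comp : ∀ s ∈ N, s ⊆ X.o → (∀ x ∈ X.x, ∃ u ∈ s, x ∈ u) →
    ∃ t : Set ZFSet.{0}, t.Finite ∧ (∀ u ∈ t, u ∈ s) ∧ ∀ x ∈ X.x, ∃ u ∈ t, x ∈ u

/-- The real-valued function `f` on `c × g` belongs to `N`: the set `z ∈ N` consists of all
`⟨x, ⟨γ, n⟩⟩` such that `x ∈ c`, `γ ∈ g` and the `n`-th rational number is less than `f x γ`. -/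
def Coded (N : Set ZFSet.{0}) (c g : ZFSet.{0}) (f : ZFSet.{0} → ZFSet.{0} → ℝ) : Prop :=
  ∃ z ∈ N, ∀ w, w ∈ z ↔ ∃ x ∈ c, ∃ γ ∈ g, ∃ n : ℕ, rt n < f x γ ∧
    w = ZFSet.pair x (ZFSet.pair γ (nat n))

/-- In `N`, the subspace `c` of the space `X` (a closed set) is Eberlein compact: there are a set
`g` and a continuous injective map `f` of `c` into `ℝ ^ g` (with the product topology) with a
bounded image contained in `c₀(g)`. -/
def Eb (N : Set ZFSet.{0}) (X : Sp) (c : ZFSet.{0}) : Prop :=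
  ∃ g ∈ N, ∃ f : ZFSet.{0} → ZFSet.{0} → ℝ, Coded N c g f ∧
    (∀ x ∈ c, ∀ y ∈ c, (∀ γ ∈ g, f x γ = f y γ) → x = y) ∧
    (∀ γ ∈ g, ∀ r : ℝ, (∃ n, r = rt n) →
      (∃ u ∈ X.o, ∀ x ∈ c, x ∈ u ↔ r < f x γ) ∧ ∃ u ∈ X.o, ∀ x ∈ c, x ∈ u ↔ f x γ < r) ∧
    (∀ x ∈ c, ∀ ε : ℝ, 0 < ε → {γ | γ ∈ g ∧ ε ≤ |f x γ|}.Finite) ∧
    ∃ C : ℝ, ∀ x ∈ c, ∀ γ ∈ g, |f x γ| ≤ C

/-- the closure of the set `a` in the space `X` -/
def cls (X : Sp) (a : ZFSet.{0}) : ZFSet.{0} :=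
  ZFSet.sep (fun x => ∀ u ∈ X.o, x ∈ u → ∃ y ∈ a, y ∈ u) X.x

/-- Property `(∗)` in `N`: the closure of every subset of size at most the continuum is Eberlein
compact. (`P` is the set of the subsets of `ω` in `N`, and `Onto N P a` says that `a` is empty or
an image of `P` in `N`.) -/
def Star (N : Set ZFSet.{0}) (X : Sp) : Prop :=
  ∀ P, IsPow N om P → ∀ a ∈ N, a ⊆ X.x → Onto N P a → Eb N X (cls X a)

end Pool.Agent.Helper23.EB
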