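import Pool.Agent.Helper23.EB.Spc
import Pool.Agent.Helper26.FV.DF

/-!
# The space exists in the model (block IN0, helper55)
-/

namespace Pool.Agent.Helper23.EB

open Pool.Agent.Helper96.Fc Pool.Agent.Helper89.FV

open ZFSet (pair)

namespace In0

/-- a finite set of elements of `N` is an element of `N` -/
theorem fin_mem {N : Set ZFSet.{0}} (hN : IsZFC N) {s : Set ZFSet.{0}} (hs : s.Finite)
    (h : ∀ z ∈ s, z ∈ N) : ∃ c ∈ N, ∀ z, z ∈ c ↔ z ∈ s := by
  induction s, hs using Set.Finite.induction_on with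
  | empty =>
    refine ⟨nat 0, nat_mem hN 0, fun z => ?_⟩
    rw [show nat 0 = ∅ from nat_zero]
    exact ⟨fun h => absurd h (ZFSet.notMem_empty z), fun h => h.elim⟩
  | @insert a s _ _ ih =>
    obtain ⟨c, hc, h1⟩ := ih fun z hz => h z (Set.mem_insert_of_mem _ hz)
    obtain ⟨d, hd, h2⟩ := exists_union hN (singleton_mem hN (h a (Set.mem_insert _ _))) hc
    exact ⟨d, hd, fun z => by rw [h2, ZFSet.mem_singleton, h1, Set.mem_insert_iff]⟩

theorem ind_om : Ind Helper89.FV.om := by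
  refine ⟨?_, fun x hx => ?_⟩
  · rw [← nat_zero]
    exact nat_mem_om 0
  · obtain ⟨n, rfl⟩ := mem_om.1 hx
    rw [← nat_succ]
    exact nat_mem_om (n + 1)

/-- `v i = ω` -/
theorem dfb_om {N : Set ZFSet.{0}} (hN : IsZFC N) (i : ℕ) :
    Dfb N (fun v => v i = Helper89.FV.om) :=
  .congr (.and (.ind hN i) (.all (.imp (.ind hN 0) (.allB hN (i + 1) (.mem 0 1)))))
    fun v hv => by
    constructor
    · rintro ⟨h1, h2⟩
      have h1 : Ind (v i) := h1
      have h2 : ∀ s ∈ N, Ind s → ∀ x ∈ v i, x ∈ s := h2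
      ext z
      constructor
      · exact h2 _ (om_mem hN) ind_om z
      · intro hz
        obtain ⟨n, rfl⟩ := mem_om.1 hz
        exact h1.nat n
    · intro h
      refine ⟨?_, fun s _ hi x hx => ?_⟩
      · show Ind (v i)
        rw [h]
        exact ind_om
      · have hx : x ∈ v i := hx
        rw [h] at hx
        obtain ⟨n, rfl⟩ := mem_om.1 hx
        exact Ind.nat hi n

theorem finite_nat (k : ℕ) : {z : ZFSet.{0} | z ∈ Helper89.FV.nat k}.Finite := by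
  induction k with
  | zero =>
    rw [nat_zero]
    refine Set.Finite.subset Set.finite_empty fun z hz => ?_
    exact absurd hz (ZFSet.notMem_empty z)
  | succ k ih =>
    rw [nat_succ]
    refine (ih.insert (Helper89.FV.nat k)).subset fun z hz => ?_
    exact ZFSet.mem_insert_iff.1 hz

/-- finiteness in `N` -/
theorem finite_iff {N : Set ZFSet.{0}} (hN : IsZFC N) {a : ZFSet.{0}} (ha : a ∈ N) :
    {z | z ∈ a}.Finite ↔ ∃ n ∈ Helper89.FV.om, ∃ f ∈ N, (∀ x ∈ N, ∀ y ∈ N, ∀ z ∈ N,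
      pair x y ∈ f → pair x z ∈ f → y = z) ∧ ∀ y ∈ a, ∃ x ∈ n, pair x y ∈ f := by
  constructor
  · have key : ∀ s : Set ZFSet.{0}, s.Finite → (∀ z ∈ s, z ∈ N) → ∃ n : ℕ, ∃ f ∈ N,
        (∀ x y z, pair x y ∈ f → pair x z ∈ f → y = z) ∧
        (∀ x y, pair x y ∈ f → x ∈ Helper89.FV.nat n) ∧
        ∀ y ∈ s, ∃ x ∈ Helper89.FV.nat n, pair x y ∈ f := by
      intro s hs h
      induction s, hs using Set.Finite.induction_on with
      | empty =>
        refine ⟨0, Helper89.FV.nat 0, nat_mem hN 0, ?_, ?_, fun y hy => hy.elim⟩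
        · intro x y z h1
          rw [nat_zero] at h1
          exact absurd h1 (ZFSet.notMem_empty _)
        · intro x y h1
          rw [nat_zero] at h1
          exact absurd h1 (ZFSet.notMem_empty _)
      | @insert b s _ _ ih =>
        obtain ⟨n, f, hf, h1, h2, h3⟩ := ih fun z hz => h z (Set.mem_insert_of_mem _ hz)
        have hb : b ∈ N := h b (Set.mem_insert _ _)
        obtain ⟨g, hg, h4⟩ := exists_union hN hf
          (singleton_mem hN ((pair_mem_iff hN).2 ⟨nat_mem hN n, hb⟩))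
        have h5 : ∀ x, x ∈ Helper89.FV.nat n → x ∈ Helper89.FV.nat (n + 1) := fun x hx => by
          rw [nat_succ]
          exact ZFSet.mem_insert_iff.2 (Or.inr hx)
        have h6 : Helper89.FV.nat n ∈ Helper89.FV.nat (n + 1) := by
          rw [nat_succ]
          exact ZFSet.mem_insert_iff.2 (Or.inl rfl)
        refine ⟨n + 1, g, hg, fun x y z hy hz => ?_, fun x y hxy => ?_, fun y hy => ?_⟩
        · rw [h4, ZFSet.mem_singleton] at hy hz
          rcases hy with hy | hy <;> rcases hz with hz | hz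
          · exact h1 x y z hy hz
          · have h7 := (ZFSet.pair_inj.1 hz).1
            have h8 := h2 x y hy
            rw [h7] at h8
            exact absurd h8 (ZFSet.mem_irrefl _)
          · have h7 := (ZFSet.pair_inj.1 hy).1
            have h8 := h2 x z hz
            rw [h7] at h8
            exact absurd h8 (ZFSet.mem_irrefl _)
          · rw [(ZFSet.pair_inj.1 hy).2, (ZFSet.pair_inj.1 hz).2]
        · rw [h4, ZFSet.mem_singleton] at hxy
          rcases hxy with hxy | hxy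
          · exact h5 _ (h2 x y hxy)
          · rw [(ZFSet.pair_inj.1 hxy).1]
            exact h6
        · rcases Set.mem_insert_iff.1 hy with rfl | hy
          · exact ⟨_, h6, (h4 _).2 (Or.inr (ZFSet.mem_singleton.2 rfl))⟩
          · obtain ⟨x, hx, hxy⟩ := h3 y hy
            exact ⟨x, h5 x hx, (h4 _).2 (Or.inl hxy)⟩
    intro h
    obtain ⟨n, f, hf, h1, -, h3⟩ := key _ h fun z hz => hN.trans a ha z hz
    exact ⟨_, nat_mem_om n, f, hf, fun x _ y _ z _ => h1 x y z, h3⟩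
  · rintro ⟨n, hn, f, hf, h1, h2⟩
    obtain ⟨k, rfl⟩ := mem_om.1 hn
    choose! g hg1 hg2 using h2
    refine Set.Finite.of_injOn (f := g) (fun y hy => hg1 y hy) ?_ (finite_nat k)
    intro y hy y' hy' hyy
    have h3 := hg2 y hy
    have h4 := hg2 y' hy'
    rw [← hyy] at h4
    exact h1 _ (hN.trans _ (nat_mem hN k) _ (hg1 y hy)) _ (hN.trans a ha y hy) _
      (hN.trans a ha y' hy') h3 h4

/-- finiteness is definable -/
theorem dfb_fin {N : Set ZFSet.{0}} (hN : IsZFC N) (i : ℕ) :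
    Dfb N (fun v => {z | z ∈ v i}.Finite) :=
  .congr (.ex (.and (dfb_om hN 0) (.exB hN 0 (.ex (.and
    (.all (.all (.all (.imp (.pair_mem hN 2 1 3) (.imp (.pair_mem hN 2 0 3) (.eq 1 0))))))
    (.allB hN (i + 3) (.exB hN 2 (.pair_mem hN 0 1 2))))))))
    fun v hv => by
    rw [finite_iff hN (hv i)]
    constructor
    · rintro ⟨o, -, ho, n, hn, f, hf, h1, h2⟩
      have ho : o = Helper89.FV.om := ho
      subst ho
      exact ⟨n, hn, f, hf, h1, h2⟩
    · rintro ⟨n, hn, f, hf, h1, h2⟩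
      exact ⟨_, om_mem hN, rfl, n, hn, f, hf, h1, h2⟩

/-- finiteness of a definable class of elements of `N` -/
theorem dfb_finset {N : Set ZFSet.{0}} (hN : IsZFC N) {R : (ℕ → ZFSet.{0}) → Prop}
    (h : Dfb N R) (hb : ∀ v, (∀ i, v i ∈ N) → ∀ x, R (cns x v) → x ∈ N) :
    Dfb N (fun v => {x | R (cns x v)}.Finite) :=
  .congr (.ex (.and (dfb_fin hN 0)
    (.all (.imp (h.ren fun i => if i = 0 then 0 else i + 1) (.mem 0 1)))))
    fun v hv => by
    have key : ∀ x c, (fun i => cns x (cns c v) (if i = 0 then 0 else i + 1)) = cns x v := by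
      intro x c
      funext i
      cases i <;> rfl
    constructor
    · rintro ⟨c, hc, h1, h2⟩
      have h1 : {z | z ∈ c}.Finite := h1
      refine h1.subset fun x hx => ?_
      have h3 := h2 x (hb v hv x hx)
      rw [key] at h3
      exact h3 hx
    · intro h1
      obtain ⟨c, hc, h2⟩ := fin_mem hN h1 fun x hx => hb v hv x hx
      refine ⟨c, hc, ?_, fun x _ hx => ?_⟩
      · show {z | z ∈ c}.Finite
        exact h1.subset fun z hz => (h2 z).1 hz
      · rw [key] at hx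
        exact (h2 x).2 hx

/-- the condition defining the open sets -/
def Opn (N : Set ZFSet.{0}) (u κ E L n0 n1 i : ZFSet.{0}) : Prop :=
  (∀ δ ∈ E, pair n1 δ ∈ u → {ξ | pair δ ξ ∈ L ∧ ¬ pair n0 ξ ∈ u}.Finite) ∧
    (i ∈ u → ∃ D ∈ N, {z | z ∈ D}.Finite ∧ (∀ δ ∈ E, ¬ pair n1 δ ∈ u → δ ∈ D) ∧
      {ξ | ξ ∈ κ ∧ ¬ pair n0 ξ ∈ u ∧ ∀ δ ∈ D, ¬ pair δ ξ ∈ L}.Finite)

theorem dfb_opn {N : Set ZFSet.{0}} (hN : IsZFC N) :
    Dfb N (fun v => Opn N (v 0) (v 1) (v 2) (v 3) (v 4) (v 5) (v 6)) :=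
  .and (.allB hN 2 (.imp (.pair_mem hN 6 0 1)
    (dfb_finset hN (R := fun v => pair (v 1) (v 0) ∈ v 5 ∧ ¬ pair (v 6) (v 0) ∈ v 2)
      (.and (.pair_mem hN 1 0 5) (.neg (.pair_mem hN 6 0 2)))
      fun _ hv _ hx => ((pair_mem_iff hN).1 (hN.trans _ (hv 4) _ hx.1)).2)))
    (.imp (.mem 6 0) (.ex (.and (dfb_fin hN 0) (.and
      (.allB hN 3 (.imp (.neg (.pair_mem hN 7 0 2)) (.mem 0 1)))
      (dfb_finset hN (R := fun v => v 0 ∈ v 3 ∧ ¬ pair (v 6) (v 0) ∈ v 2 ∧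
          ∀ δ ∈ v 1, ¬ pair δ (v 0) ∈ v 5)
        (.and (.mem 0 3) (.and (.neg (.pair_mem hN 6 0 2))
          (.allB hN 1 (.neg (.pair_mem hN 0 1 6)))))
        fun _ hv _ hx => hN.trans _ (hv 2) _ hx.1)))))

/-- the set of the points -/
theorem exists_x {N : Set ZFSet.{0}} (hN : IsZFC N) {κ E : ZFSet.{0}} (hκ : κ ∈ N) (hE : E ∈ N) :
    ∃ x ∈ N, ∀ z, z ∈ x ↔ (∃ ξ ∈ κ, z = iso ξ) ∨ (∃ δ ∈ E, z = lmt δ) ∨ z = ifty := by
  obtain ⟨a, ha, h1⟩ := exists_prod hN (singleton_mem hN (nat_mem hN 0)) hκ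
  obtain ⟨b, hb, h2⟩ := exists_prod hN (singleton_mem hN (nat_mem hN 1)) hE
  have hi : ifty ∈ N := (pair_mem_iff hN).2 ⟨nat_mem hN 2, nat_mem hN 0⟩
  obtain ⟨c, hc, h3⟩ := exists_union hN hb (singleton_mem hN hi)
  obtain ⟨x, hx, h4⟩ := exists_union hN ha hc
  refine ⟨x, hx, fun z => ?_⟩
  rw [h4, h3, h1, h2, ZFSet.mem_singleton]
  refine or_congr ?_ (or_congr ?_ Iff.rfl)
  · constructor
    · rintro ⟨y, hy, ξ, hξ, rfl⟩
      rw [ZFSet.mem_singleton] at hy
      subst hy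
      exact ⟨ξ, hξ, rfl⟩
    · rintro ⟨ξ, hξ, rfl⟩
      exact ⟨_, ZFSet.mem_singleton.2 rfl, ξ, hξ, rfl⟩
  · constructor
    · rintro ⟨y, hy, ξ, hξ, rfl⟩
      rw [ZFSet.mem_singleton] at hy
      subst hy
      exact ⟨ξ, hξ, rfl⟩
    · rintro ⟨ξ, hξ, rfl⟩
      exact ⟨_, ZFSet.mem_singleton.2 rfl, ξ, hξ, rfl⟩

end In0

open In0

/-- the space exists in the model -/
theorem exists_sp {N : Set ZFSet.{0}} {κ E L T : ZFSet.{0}} (hN : IsZFC N)
    (h : LadM N κ E L T) : ∃ X, SpM N κ E L X := by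
  obtain ⟨x, hx, hmx⟩ := exists_x hN h.κN h.EN
  obtain ⟨w, hw, hmw⟩ := exists_powerset hN hx
  have hi : ifty ∈ N := (pair_mem_iff hN).2 ⟨nat_mem hN 2, nat_mem hN 0⟩
  have hn0 : nat 0 ∈ N := nat_mem hN 0
  have hn1 : nat 1 ∈ N := nat_mem hN 1
  obtain ⟨o, ho, hmo⟩ := (dfb_opn hN).sep hN
    (v := cns κ (cns E (cns L (cns (nat 0) (cns (nat 1) fun _ => ifty)))))
    (cns_mem h.κN (cns_mem h.EN (cns_mem h.LN (cns_mem hn0 (cns_mem hn1 fun _ => hi))))) hw
  refine ⟨⟨x, o⟩, hx, ho, hmx, fun u => ?_⟩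
  rw [show u ∈ (⟨x, o⟩ : Sp).o ↔ u ∈ o from Iff.rfl, hmo, hmw, and_assoc]
  refine and_congr_right fun _ => and_congr_right fun _ => ?_
  change Opn N u κ E L (nat 0) (nat 1) ifty ↔ _
  refine and_congr Iff.rfl (imp_congr_right fun _ => ?_)
  constructor
  · rintro ⟨D, -, h1, h2, h3⟩
    exact ⟨{z | z ∈ D}, h1, h2, h3⟩
  · rintro ⟨D, h1, h2, h3⟩
    have h4 : (D ∩ {z | z ∈ E}).Finite := h1.subset Set.inter_subset_left
    obtain ⟨D', hD', h5⟩ := fin_mem hN h4 fun z hz => hN.trans _ h.EN _ hz.2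
    refine ⟨D', hD', h4.subset fun z hz => (h5 z).1 hz, fun δ hδ hu => (h5 δ).2 ⟨h2 δ hδ hu, hδ⟩,
      h3.subset ?_⟩
    rintro ξ ⟨h6, h7, h8⟩
    refine ⟨h6, h7, fun δ hδ hL => ?_⟩
    exact h8 δ ((h5 δ).2 ⟨hδ, (h.L1 δ ξ hL).1⟩) hL

end Pool.Agent.Helper23.EB
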