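import Pool.Agent.Helper23.EB.Spc
import Pool.Agent.Helper26.FV.DF

/-!
# Closures of small sets are Eberlein compact (block IN2)
-/

namespace Pool.Agent.Helper23.EB.In2

open Pool.Agent.Helper96.Fc Pool.Agent.Helper89.FV

open Pool.Agent.Helper23.EB (iso lmt ifty LadM SpM Sp Star Eb Coded cls rt)

open ZFSet (pair)

/-! ### The points -/

theorem iso_inj {ξ η : ZFSet.{0}} (h : iso ξ = iso η) : ξ = η := (ZFSet.pair_inj.1 h).2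

theorem lmt_inj {ξ η : ZFSet.{0}} (h : lmt ξ = lmt η) : ξ = η := (ZFSet.pair_inj.1 h).2

theorem iso_ne_lmt {ξ η : ZFSet.{0}} : iso ξ ≠ lmt η := fun h =>
  absurd (nat_inj (m := 0) (n := 1) (ZFSet.pair_inj.1 h).1) (by decide)

theorem iso_ne_ifty {ξ : ZFSet.{0}} : iso ξ ≠ ifty := fun h =>
  absurd (nat_inj (m := 0) (n := 2) (ZFSet.pair_inj.1 h).1) (by decide)

theorem lmt_ne_ifty {ξ : ZFSet.{0}} : lmt ξ ≠ ifty := fun h =>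
  absurd (nat_inj (m := 1) (n := 2) (ZFSet.pair_inj.1 h).1) (by decide)

section

variable {N : Set ZFSet.{0}} {κ E L T : ZFSet.{0}} {X : Sp}

theorem iso_mem_N (hN : IsZFC N) {ξ : ZFSet.{0}} : iso ξ ∈ N ↔ ξ ∈ N :=
  (pair_mem_iff hN).trans ⟨fun h => h.2, fun h => ⟨nat_mem hN 0, h⟩⟩

theorem lmt_mem_N (hN : IsZFC N) {ξ : ZFSet.{0}} : lmt ξ ∈ N ↔ ξ ∈ N :=
  (pair_mem_iff hN).trans ⟨fun h => h.2, fun h => ⟨nat_mem hN 1, h⟩⟩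

theorem ifty_mem_N (hN : IsZFC N) : ifty ∈ N :=
  (pair_mem_iff hN).2 ⟨nat_mem hN 2, nat_mem hN 0⟩

/-- separation by a relation with seven parameters -/
theorem sep7 (hN : IsZFC N)
    {R : ZFSet.{0} → ZFSet.{0} → ZFSet.{0} → ZFSet.{0} → ZFSet.{0} → ZFSet.{0} → ZFSet.{0} →
      ZFSet.{0} → Prop}
    (h : Dfb N (fun v => R (v 0) (v 1) (v 2) (v 3) (v 4) (v 5) (v 6) (v 7)))
    {a p q r s t u w : ZFSet.{0}} (ha : a ∈ N)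
    (hp : p ∈ N) (hq : q ∈ N) (hr : r ∈ N) (hs : s ∈ N) (ht : t ∈ N) (hu : u ∈ N) (hw : w ∈ N) :
    ∃ b ∈ N, ∀ x, x ∈ b ↔ x ∈ a ∧ R x p q r s t u w :=
  h.sep hN (v := cns p (cns q (cns r (cns s (cns t (cns u (fun _ => w)))))))
    (cns_mem hp (cns_mem hq (cns_mem hr (cns_mem hs (cns_mem ht (cns_mem hu fun _ => hw)))))) ha

/-! ### Bounds for small sets -/

theorem onto_pull (hN : IsZFC N) {P a A c : ZFSet.{0}} (hP : P ∈ N) (hA : A ∈ N) (hc : c ∈ N)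
    (hAa : ∀ ξ ∈ A, pair c ξ ∈ a) (h : Onto N P a) : Onto N P A := by
  obtain ⟨f, hf, hf1, hf2⟩ := h
  obtain ⟨D, hD, h1⟩ := exists_prod hN hP hA
  obtain ⟨f', hf', h2⟩ := sep4 hN
    (R := fun w c f _ _ => ∃ p ∈ N, ∃ ξ ∈ N, ∃ z ∈ N, w = pair p ξ ∧ z = pair c ξ ∧
      pair p z ∈ f)
    (.ex (.ex (.ex (.and (.pair hN 3 2 1) (.and (.pair hN 0 4 1) (.pair_mem hN 2 0 5))))))
    hD hc hf hf hf
  refine ⟨f', hf', ?_, ?_⟩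
  · intro x y z hy hz
    obtain ⟨-, p, -, ξ, -, w, -, h3, rfl, h4⟩ := (h2 _).1 hy
    obtain ⟨-, p', -, ξ', -, w', -, h5, rfl, h6⟩ := (h2 _).1 hz
    obtain ⟨rfl, rfl⟩ := ZFSet.pair_inj.1 h3
    obtain ⟨rfl, rfl⟩ := ZFSet.pair_inj.1 h5
    exact (ZFSet.pair_inj.1 (hf1 _ _ _ h4 h6)).2
  · intro ξ hξ
    obtain ⟨p, hp, h3⟩ := hf2 _ (hAa ξ hξ)
    have hpN := hN.trans _ hP _ hp
    have hξN := hN.trans _ hA _ hξ
    exact ⟨p, hp, (h2 _).2 ⟨(h1 _).2 ⟨p, hp, ξ, hξ, rfl⟩, p, hpN, ξ, hξN, _,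
      (pair_mem_iff hN).2 ⟨hc, hξN⟩, rfl, rfl, h3⟩⟩

theorem exists_bound (hN : IsZFC N) (h : LadM N κ E L T) {P a : ZFSet.{0}} (hP : IsPow N om P)
    (ha : a ∈ N) (hO : Onto N P a) (c : ZFSet.{0}) (hc : c ∈ N) :
    ∃ α ∈ κ, ∀ ξ ∈ κ, pair c ξ ∈ a → ξ ∈ α := by
  obtain ⟨A, hA, h1⟩ := sep4 hN (R := fun ξ c a _ _ => pair c ξ ∈ a) (.pair_mem hN 1 0 2)
    h.κN hc ha ha ha
  obtain ⟨α, hα, h2⟩ := h.bd P hP A hA (fun ξ hξ => ((h1 ξ).1 hξ).1)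
    (onto_pull hN hP.1 hA hc (fun ξ hξ => ((h1 ξ).1 hξ).2) hO)
  exact ⟨α, hα, fun ξ hξ h3 => h2 ((h1 ξ).2 ⟨hξ, h3⟩)⟩

theorem exists_bound2 (hN : IsZFC N) (h : LadM N κ E L T) {P a : ZFSet.{0}} (hP : IsPow N om P)
    (ha : a ∈ N) (hO : Onto N P a) :
    ∃ α ∈ κ, ∀ ξ ∈ κ, (iso ξ ∈ a ∨ lmt ξ ∈ a) → ξ ∈ α := by
  obtain ⟨α, hα, h1⟩ := exists_bound hN h hP ha hO (nat 0) (nat_mem hN 0)
  obtain ⟨β, hβ, h2⟩ := exists_bound hN h hP ha hO (nat 1) (nat_mem hN 1)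
  rcases (h.ord.mem hα).subset_total (h.ord.mem hβ) with h3 | h3
  · refine ⟨β, hβ, ?_⟩
    rintro ξ hξ (h4 | h4)
    · exact h3 (h1 ξ hξ h4)
    · exact h2 ξ hξ h4
  · refine ⟨α, hα, ?_⟩
    rintro ξ hξ (h4 | h4)
    · exact h1 ξ hξ h4
    · exact h3 (h2 ξ hξ h4)

/-! ### Sets in the model -/

theorem cls_mem (hN : IsZFC N) (hX : SpM N κ E L X) {a : ZFSet.{0}} (ha : a ∈ N) :
    cls X a ∈ N := by
  obtain ⟨c, hc, h⟩ := sep4 hN (R := fun x o a _ _ => ∀ u ∈ o, x ∈ u → ∃ y ∈ a, y ∈ u)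
    (.allB hN 1 (.imp (.mem 1 0) (.exB hN 3 (.mem 0 1)))) hX.xN hX.oN ha ha ha
  have : c = cls X a := by
    ext z
    rw [h, cls, ZFSet.mem_sep]
  rwa [← this]

theorem compl_mem (hN : IsZFC N) {a u : ZFSet.{0}} (ha : a ∈ N) (hu : u ∈ N) :
    ∃ b ∈ N, ∀ z, z ∈ b ↔ z ∈ a ∧ z ∉ u :=
  sep4 hN (R := fun z u _ _ _ => z ∉ u) (.neg (.mem 0 1)) ha hu hu hu hu

/-- the set of the indices of the rational numbers below a given one -/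
theorem exists_cut (hN : IsZFC N) (h : LadM N κ E L T) (k : ℕ) :
    ∃ Q ∈ N, ∀ n, nat n ∈ Q ↔ rt n < rt k := by
  obtain ⟨q, hq, h1⟩ := h.rat
  obtain ⟨Q, hQ, h2⟩ := sep4 hN
    (R := fun w c q _ _ => ∃ m ∈ N, ∃ t ∈ N, t = pair w m ∧ pair c t ∈ q)
    (.ex (.ex (.and (.pair hN 0 2 1) (.pair_mem hN 3 0 4)))) (om_mem hN) (nat_mem hN k) hq hq hq
  refine ⟨Q, hQ, fun n => ?_⟩
  rw [h2]
  constructor
  · rintro ⟨-, m, -, t, -, rfl, h3⟩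
    obtain ⟨n1, n2, m', h4, h5⟩ := (h1 _).1 h3
    obtain ⟨h6, h7⟩ := ZFSet.pair_inj.1 h5
    obtain ⟨h8, -⟩ := ZFSet.pair_inj.1 h7
    have h9 := nat_inj h6
    have h10 := nat_inj h8
    rw [h9, h10]
    by_contra h11
    have : (m' : ℝ) * (rt n1 - rt n2) ≤ 0 :=
      mul_nonpos_of_nonneg_of_nonpos (Nat.cast_nonneg _) (by linarith)
    linarith
  · intro h3
    obtain ⟨m, hm⟩ := exists_nat_gt (1 / (rt k - rt n))
    have h4 : 0 < rt k - rt n := by linarith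
    rw [div_lt_iff₀ h4] at hm
    exact ⟨nat_mem_om n, nat m, nat_mem hN m, _, (pair_mem_iff hN).2 ⟨nat_mem hN n, nat_mem hN m⟩,
      rfl, (h1 _).2 ⟨k, n, m, hm, rfl⟩⟩

theorem exists_rt (q : ℚ) : ∃ k, rt k = q := ⟨Denumerable.eqv ℚ q, by simp [rt]⟩

/-! ### Open sets -/

theorem iso_mem_x (hX : SpM N κ E L X) {ξ : ZFSet.{0}} : iso ξ ∈ X.x ↔ ξ ∈ κ := by
  rw [hX.mem_x]
  constructor
  · rintro (⟨η, hη, h⟩ | ⟨δ, -, h⟩ | h)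
    · rw [iso_inj h]; exact hη
    · exact absurd h iso_ne_lmt
    · exact absurd h iso_ne_ifty
  · intro h
    exact Or.inl ⟨ξ, h, rfl⟩

theorem lmt_mem_x (hX : SpM N κ E L X) {ξ : ZFSet.{0}} : lmt ξ ∈ X.x ↔ ξ ∈ E := by
  rw [hX.mem_x]
  constructor
  · rintro (⟨η, hη, h⟩ | ⟨δ, hδ, h⟩ | h)
    · exact absurd h.symm iso_ne_lmt
    · rw [lmt_inj h]; exact hδ
    · exact absurd h lmt_ne_ifty
  · intro h
    exact Or.inr (Or.inl ⟨ξ, h, rfl⟩)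

theorem empty_open (hN : IsZFC N) (hX : SpM N κ E L X) : (∅ : ZFSet.{0}) ∈ X.o := by
  rw [hX.mem_o]
  refine ⟨?_, ZFSet.empty_subset _, fun δ _ h => absurd h (ZFSet.notMem_empty _),
    fun h => absurd h (ZFSet.notMem_empty _)⟩
  have := nat_mem hN 0
  rwa [nat_zero] at this

theorem x_open (h : LadM N κ E L T) (hX : SpM N κ E L X) : X.x ∈ X.o := by
  rw [hX.mem_o]
  refine ⟨hX.xN, fun _ h => h, ?_, ?_⟩
  · intro δ hδ _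
    convert Set.finite_empty
    ext ξ
    simp only [Set.mem_ofPred_eq, Set.mem_empty_iff_false, iff_false, not_and, not_not]
    intro h1
    exact (iso_mem_x hX).2 (h.ord.mem_trans (h.L1 _ _ h1).2 (h.Eκ hδ))
  · intro _
    refine ⟨∅, Set.finite_empty, ?_, ?_⟩
    · intro δ hδ h1
      exact absurd ((lmt_mem_x hX).2 hδ) h1
    · convert Set.finite_empty
      ext ξ
      simp only [Set.mem_ofPred_eq, Set.mem_empty_iff_false, iff_false]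
      rintro ⟨h1, h2, -⟩
      exact h2 ((iso_mem_x hX).2 h1)

theorem iso_open (hN : IsZFC N) (h : LadM N κ E L T) (hX : SpM N κ E L X) {ξ : ZFSet.{0}}
    (hξ : ξ ∈ κ) : ({iso ξ} : ZFSet.{0}) ∈ X.o := by
  rw [hX.mem_o]
  refine ⟨singleton_mem hN ((iso_mem_N hN).2 (hN.trans _ h.κN _ hξ)), ?_, ?_, ?_⟩
  · intro z hz
    rw [ZFSet.mem_singleton] at hz
    rw [hz]
    exact (iso_mem_x hX).2 hξ
  · intro δ _ h1
    rw [ZFSet.mem_singleton] at h1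
    exact absurd h1.symm iso_ne_lmt
  · intro h1
    rw [ZFSet.mem_singleton] at h1
    exact absurd h1.symm iso_ne_ifty

/-- the complement of an isolated point -/
theorem iso_compl_open (hN : IsZFC N) (h : LadM N κ E L T) (hX : SpM N κ E L X) {ξ : ZFSet.{0}}
    (hξ : ξ ∈ κ) : ∃ u ∈ X.o, ∀ z, z ∈ u ↔ z ∈ X.x ∧ z ≠ iso ξ := by
  obtain ⟨u, hu, h1⟩ := compl_mem hN hX.xN
    (singleton_mem hN ((iso_mem_N hN).2 (hN.trans _ h.κN _ hξ)))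
  simp only [ZFSet.mem_singleton] at h1
  refine ⟨u, (hX.mem_o _).2 ⟨hu, fun z hz => ((h1 z).1 hz).1, ?_, ?_⟩, h1⟩
  · intro δ hδ _
    refine (Set.finite_singleton ξ).subset ?_
    rintro η ⟨h2, h3⟩
    by_contra h4
    exact h3 ((h1 _).2 ⟨(iso_mem_x hX).2 (h.ord.mem_trans (h.L1 _ _ h2).2 (h.Eκ hδ)),
      fun h5 => h4 (iso_inj h5)⟩)
  · intro _
    refine ⟨∅, Set.finite_empty, ?_, ?_⟩
    · intro δ hδ h2
      exact absurd ((h1 _).2 ⟨(lmt_mem_x hX).2 hδ, fun h3 => iso_ne_lmt h3.symm⟩) h2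
    · refine (Set.finite_singleton ξ).subset ?_
      rintro η ⟨h2, h3, -⟩
      by_contra h4
      exact h3 ((h1 _).2 ⟨(iso_mem_x hX).2 h2, fun h5 => h4 (iso_inj h5)⟩)

/-- the ladder of `δ` without its part below `α` -/
theorem tail_open (hN : IsZFC N) (h : LadM N κ E L T) (hX : SpM N κ E L X) {δ α : ZFSet.{0}}
    (hδ : δ ∈ E) (hα : α ∈ δ) :
    ∃ u ∈ X.o, ∀ z, z ∈ u ↔ z = lmt δ ∨ ∃ ξ, z = iso ξ ∧ pair δ ξ ∈ L ∧ ξ ∉ α := by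
  have hδκ := h.Eκ hδ
  have hδN := hN.trans _ h.κN _ hδκ
  have hαN := hN.trans _ hδN _ hα
  obtain ⟨u, hu, h1⟩ := sep7 hN
    (R := fun z a0 l δ L α _ _ => z = l ∨ ∃ ξ ∈ N, z = pair a0 ξ ∧ pair δ ξ ∈ L ∧ ¬ ξ ∈ α)
    (.or (.eq 0 2) (.ex (.and (.pair hN 1 2 0) (.and (.pair_mem hN 4 0 5) (.neg (.mem 0 6))))))
    hX.xN (nat_mem hN 0) ((lmt_mem_N hN).2 hδN) hδN h.LN hαN hαN hαN
  have key : ∀ z, z ∈ u ↔ z = lmt δ ∨ ∃ ξ, z = iso ξ ∧ pair δ ξ ∈ L ∧ ξ ∉ α := by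
    intro z
    rw [h1]
    constructor
    · rintro ⟨-, h2 | ⟨ξ, -, h2, h3⟩⟩
      · exact Or.inl h2
      · exact Or.inr ⟨ξ, h2, h3⟩
    · rintro (rfl | ⟨ξ, rfl, h3, h4⟩)
      · exact ⟨(lmt_mem_x hX).2 hδ, Or.inl rfl⟩
      · have hξ : ξ ∈ κ := h.ord.mem_trans (h.L1 _ _ h3).2 hδκ
        exact ⟨(iso_mem_x hX).2 hξ, Or.inr ⟨ξ, hN.trans _ h.κN _ hξ, rfl, h3, h4⟩⟩
  refine ⟨u, (hX.mem_o _).2 ⟨hu, fun z hz => ((h1 z).1 hz).1, ?_, ?_⟩, key⟩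
  · intro δ' hδ' h2
    rcases (key _).1 h2 with h3 | ⟨ξ, h3, -⟩
    · have := lmt_inj h3
      subst this
      refine (h.L2 δ' hδ' α hα).subset ?_
      rintro ξ ⟨h4, h5⟩
      refine ⟨h4, ?_⟩
      by_contra h6
      exact h5 ((key _).2 (Or.inr ⟨ξ, rfl, h4, h6⟩))
    · exact absurd h3.symm iso_ne_lmt
  · intro h2
    rcases (key _).1 h2 with h3 | ⟨ξ, h3, -⟩
    · exact absurd h3.symm lmt_ne_ifty
    · exact absurd h3.symm iso_ne_ifty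

/-- the modified ladder of `δ` is open and closed -/
theorem clopen (hN : IsZFC N) (h : LadM N κ E L T) (hX : SpM N κ E L X) {δ β : ZFSet.{0}}
    (hδ : δ ∈ E) (hβ : β ∈ κ) (hδβ : δ ∈ β) :
    ∃ u ∈ X.o, ∃ v ∈ X.o, (∀ z, z ∈ u ↔ z = lmt δ ∨ ∃ ξ, z = iso ξ ∧ pair β (pair δ ξ) ∈ T) ∧
      ∀ z, z ∈ v ↔ z ∈ X.x ∧ z ∉ u := by
  have hδκ := h.Eκ hδ
  have hδN := hN.trans _ h.κN _ hδκ
  have hβN := hN.trans _ h.κN _ hβ
  have tκ : ∀ ξ, pair β (pair δ ξ) ∈ T → ξ ∈ κ := fun ξ h3 =>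
    h.ord.mem_trans (h.L1 _ _ (h.T1 _ _ _ h3)).2 hδκ
  obtain ⟨u, hu, h1⟩ := sep7 hN
    (R := fun z a0 l δ β T _ _ => z = l ∨ ∃ ξ ∈ N, z = pair a0 ξ ∧ ∃ t ∈ N, t = pair δ ξ ∧
      pair β t ∈ T)
    (.or (.eq 0 2) (.ex (.and (.pair hN 1 2 0) (.ex (.and (.pair hN 0 5 1)
      (.pair_mem hN 6 0 7))))))
    hX.xN (nat_mem hN 0) ((lmt_mem_N hN).2 hδN) hδN hβN h.TN hβN hβN
  have key : ∀ z, z ∈ u ↔ z = lmt δ ∨ ∃ ξ, z = iso ξ ∧ pair β (pair δ ξ) ∈ T := by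
    intro z
    rw [h1]
    constructor
    · rintro ⟨-, h2 | ⟨ξ, -, h2, t, -, rfl, h3⟩⟩
      · exact Or.inl h2
      · exact Or.inr ⟨ξ, h2, h3⟩
    · rintro (rfl | ⟨ξ, rfl, h3⟩)
      · exact ⟨(lmt_mem_x hX).2 hδ, Or.inl rfl⟩
      · have hξ : ξ ∈ κ := tκ ξ h3
        have hξN := hN.trans _ h.κN _ hξ
        exact ⟨(iso_mem_x hX).2 hξ, Or.inr ⟨ξ, hξN, rfl, _, (pair_mem_iff hN).2 ⟨hδN, hξN⟩,
          rfl, h3⟩⟩
  obtain ⟨v, hv, h2⟩ := compl_mem hN hX.xN hu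
  have isou : ∀ ξ, iso ξ ∈ u ↔ pair β (pair δ ξ) ∈ T := by
    intro ξ
    rw [key]
    constructor
    · rintro (h3 | ⟨η, h3, h4⟩)
      · exact absurd h3 iso_ne_lmt
      · rw [iso_inj h3]; exact h4
    · intro h3
      exact Or.inr ⟨ξ, rfl, h3⟩
  have lmtu : ∀ ξ, lmt ξ ∈ u ↔ ξ = δ := by
    intro ξ
    rw [key]
    constructor
    · rintro (h3 | ⟨η, h3, h4⟩)
      · exact lmt_inj h3
      · exact absurd h3.symm iso_ne_lmt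
    · rintro rfl
      exact Or.inl rfl
  refine ⟨u, (hX.mem_o _).2 ⟨hu, fun z hz => ((h1 z).1 hz).1, ?_, ?_⟩, v,
    (hX.mem_o _).2 ⟨hv, fun z hz => ((h2 z).1 hz).1, ?_, ?_⟩, key, h2⟩
  · intro δ' _ h3
    rw [lmtu] at h3
    subst h3
    refine (h.T2 β hβ δ' hδ hδβ).subset ?_
    rintro ξ ⟨h4, h5⟩
    exact ⟨h4, fun h6 => h5 ((isou ξ).2 h6)⟩
  · intro h3
    rcases (key _).1 h3 with h3 | ⟨ξ, h3, -⟩
    · exact absurd h3.symm lmt_ne_ifty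
    · exact absurd h3.symm iso_ne_ifty
  · intro δ' hδ' h3
    have hne : δ' ≠ δ := fun h4 => ((h2 _).1 h3).2 ((lmtu _).2 h4)
    have hδ'κ := h.Eκ hδ'
    have hsub : ∀ ξ, pair δ' ξ ∈ L → iso ξ ∉ v → pair β (pair δ ξ) ∈ T := by
      intro ξ h4 h5
      by_contra h6
      exact h5 ((h2 _).2 ⟨(iso_mem_x hX).2 (h.ord.mem_trans (h.L1 _ _ h4).2 hδ'κ),
        fun h7 => h6 ((isou ξ).1 h7)⟩)
    by_cases h4 : δ' ∈ β
    · refine (h.T2 β hβ δ' hδ' h4).subset ?_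
      rintro ξ ⟨h5, h6⟩
      exact ⟨h5, fun h7 => hne (h.T3 β hβ δ' δ ξ h4 hδβ h7 (hsub ξ h5 h6))⟩
    · have h5 : β ⊆ δ' := ((h.ord.mem hδ'κ).notMem_iff_subset (h.ord.mem hβ)).1 h4
      refine (h.L2 δ' hδ' δ (h5 hδβ)).subset ?_
      rintro ξ ⟨h6, h7⟩
      exact ⟨h6, (h.L1 _ _ (h.T1 _ _ _ (hsub ξ h6 h7))).2⟩
  · intro _
    refine ⟨{δ}, Set.finite_singleton δ, ?_, ?_⟩
    · intro δ' hδ' h3
      by_contra h4
      exact h3 ((h2 _).2 ⟨(lmt_mem_x hX).2 hδ', fun h5 => h4 ((lmtu _).1 h5)⟩)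
    · convert Set.finite_empty
      ext ξ
      simp only [Set.mem_ofPred_eq, Set.mem_empty_iff_false, iff_false]
      rintro ⟨h3, h4, h5⟩
      refine h4 ((h2 _).2 ⟨(iso_mem_x hX).2 h3, fun h6 => ?_⟩)
      exact h5 δ rfl (h.T1 _ _ _ ((isou ξ).1 h6))

/-! ### The closure of a bounded set -/

theorem cls_iso (hN : IsZFC N) (h : LadM N κ E L T) (hX : SpM N κ E L X) {a ξ : ZFSet.{0}}
    (h1 : iso ξ ∈ cls X a) : ξ ∈ κ ∧ iso ξ ∈ a := by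
  rw [cls, ZFSet.mem_sep] at h1
  have hξ := (iso_mem_x hX).1 h1.1
  obtain ⟨y, hy, h2⟩ := h1.2 _ (iso_open hN h hX hξ) (ZFSet.mem_singleton.2 rfl)
  rw [ZFSet.mem_singleton] at h2
  exact ⟨hξ, h2 ▸ hy⟩

theorem cls_lmt (hN : IsZFC N) (h : LadM N κ E L T) (hX : SpM N κ E L X) {a α δ : ZFSet.{0}}
    (hα : α ∈ κ) (hb : ∀ ξ ∈ κ, (iso ξ ∈ a ∨ lmt ξ ∈ a) → ξ ∈ α) (h1 : lmt δ ∈ cls X a) :
    δ ∈ E ∧ (δ ∈ α ∨ δ = α) := by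
  rw [cls, ZFSet.mem_sep] at h1
  have hδ := (lmt_mem_x hX).1 h1.1
  have hδκ := h.Eκ hδ
  refine ⟨hδ, ?_⟩
  rcases (h.ord.mem hδκ).mem_trichotomous (h.ord.mem hα) with h2 | h2 | h2
  · exact Or.inl h2
  · exact Or.inr h2
  · left
    obtain ⟨u, hu, h3⟩ := tail_open hN h hX hδ h2
    obtain ⟨y, hy, h4⟩ := h1.2 u hu ((h3 _).2 (Or.inl rfl))
    rcases (h3 _).1 h4 with rfl | ⟨ξ, rfl, h5, h6⟩
    · exact hb _ hδκ (Or.inr hy)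
    · exact absurd (hb ξ (h.ord.mem_trans (h.L1 _ _ h5).2 hδκ) (Or.inl hy)) h6

/-! ### The embedding -/

/-- `R x γ`: `x = γ`, or `x = iso ξ`, `γ = lmt δ`, and `ξ` is in the modified ladder of `δ` -/
def Rel (β T x γ : ZFSet.{0}) : Prop :=
  x = γ ∨ ∃ ξ δ, x = iso ξ ∧ γ = lmt δ ∧ pair β (pair δ ξ) ∈ T

open Classical in
/-- the embedding -/
noncomputable def emb (β T x γ : ZFSet.{0}) : ℝ := if Rel β T x γ then 1 else 0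

theorem emb_of {β x γ : ZFSet.{0}} (h : Rel β T x γ) : emb β T x γ = 1 := if_pos h

theorem emb_of_not {β x γ : ZFSet.{0}} (h : ¬ Rel β T x γ) : emb β T x γ = 0 := if_neg h

theorem coded (hN : IsZFC N) (h : LadM N κ E L T) {β c g : ZFSet.{0}} (hβ : β ∈ N) (hc : c ∈ N)
    (hg : g ∈ N) : Coded N c g (emb β T) := by
  obtain ⟨k0, hk0⟩ := exists_rt 0
  obtain ⟨k1, hk1⟩ := exists_rt 1
  obtain ⟨Q0, hQ0, h0⟩ := exists_cut hN h k0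
  obtain ⟨Q1, hQ1, h1⟩ := exists_cut hN h k1
  rw [hk0] at h0
  rw [hk1] at h1
  push_cast at h0 h1
  obtain ⟨D, hD, h2⟩ := exists_prod hN hc hg
  obtain ⟨R, hR, h3⟩ := sep7 hN
    (R := fun w a0 a1 β T _ _ _ => ∃ x ∈ N, ∃ γ ∈ N, w = pair x γ ∧ (x = γ ∨
      ∃ ξ ∈ N, ∃ δ ∈ N, x = pair a0 ξ ∧ γ = pair a1 δ ∧ ∃ t ∈ N, t = pair δ ξ ∧ pair β t ∈ T))
    (.ex (.ex (.and (.pair hN 2 1 0) (.or (.eq 1 0) (.ex (.ex (.and (.pair hN 3 5 1)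
      (.and (.pair hN 2 6 0) (.ex (.and (.pair hN 0 1 2) (.pair_mem hN 8 0 9)))))))))))
    hD (nat_mem hN 0) (nat_mem hN 1) hβ h.TN hβ hβ hβ
  have hRel : ∀ x ∈ c, ∀ γ ∈ g, pair x γ ∈ R ↔ Rel β T x γ := by
    intro x hx γ hγ
    have hxN := hN.trans _ hc _ hx
    have hγN := hN.trans _ hg _ hγ
    rw [h3]
    constructor
    · rintro ⟨-, x', -, γ', -, h4, h5⟩
      obtain ⟨rfl, rfl⟩ := ZFSet.pair_inj.1 h4
      rcases h5 with h5 | ⟨ξ, -, δ, -, h6, h7, t, -, rfl, h8⟩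
      · exact Or.inl h5
      · exact Or.inr ⟨ξ, δ, h6, h7, h8⟩
    · intro h4
      refine ⟨(h2 _).2 ⟨x, hx, γ, hγ, rfl⟩, x, hxN, γ, hγN, rfl, ?_⟩
      rcases h4 with h4 | ⟨ξ, δ, h6, h7, h8⟩
      · exact Or.inl h4
      · have hξ : ξ ∈ N := by rw [h6] at hxN; exact (iso_mem_N hN).1 hxN
        have hδ : δ ∈ N := by rw [h7] at hγN; exact (lmt_mem_N hN).1 hγN
        exact Or.inr ⟨ξ, hξ, δ, hδ, h6, h7, _, (pair_mem_iff hN).2 ⟨hδ, hξ⟩, rfl, h8⟩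
  obtain ⟨D1, hD1, h4⟩ := exists_prod hN hg (om_mem hN)
  obtain ⟨D2, hD2, h5⟩ := exists_prod hN hc hD1
  obtain ⟨z, hz, h6⟩ := sep7 hN
    (R := fun w R Q0 Q1 _ _ _ _ => ∃ x ∈ N, ∃ t ∈ N, w = pair x t ∧ ∃ γ ∈ N, ∃ n ∈ N,
      t = pair γ n ∧ ((pair x γ ∈ R ∧ n ∈ Q1) ∨ (¬ pair x γ ∈ R ∧ n ∈ Q0)))
    (.ex (.ex (.and (.pair hN 2 1 0) (.ex (.ex (.and (.pair hN 2 1 0)
      (.or (.and (.pair_mem hN 3 1 5) (.mem 0 7)) (.and (.neg (.pair_mem hN 3 1 5))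
        (.mem 0 6)))))))))
    hD2 hR hQ0 hQ1 hQ1 hQ1 hQ1 hQ1
  refine ⟨z, hz, fun w => ?_⟩
  rw [h6]
  constructor
  · rintro ⟨hw, x, -, t, -, rfl, γ, -, n, -, rfl, h7⟩
    obtain ⟨x', hx, t', ht, h8⟩ := (h5 _).1 hw
    obtain ⟨rfl, rfl⟩ := ZFSet.pair_inj.1 h8
    obtain ⟨γ', hγ, n', hn, h9⟩ := (h4 _).1 ht
    obtain ⟨rfl, rfl⟩ := ZFSet.pair_inj.1 h9
    obtain ⟨n, rfl⟩ := mem_om.1 hn
    refine ⟨x, hx, γ, hγ, n, ?_, rfl⟩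
    rcases h7 with ⟨h10, h11⟩ | ⟨h10, h11⟩
    · rw [emb_of ((hRel x hx γ hγ).1 h10)]
      exact (h1 n).1 h11
    · rw [emb_of_not fun h12 => h10 ((hRel x hx γ hγ).2 h12)]
      exact (h0 n).1 h11
  · rintro ⟨x, hx, γ, hγ, n, h7, rfl⟩
    have hxN := hN.trans _ hc _ hx
    have hγN := hN.trans _ hg _ hγ
    have hnN := nat_mem hN n
    refine ⟨(h5 _).2 ⟨x, hx, _, (h4 _).2 ⟨γ, hγ, _, nat_mem_om n, rfl⟩, rfl⟩, x, hxN, _,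
      (pair_mem_iff hN).2 ⟨hγN, hnN⟩, rfl, γ, hγN, nat n, hnN, rfl, ?_⟩
    by_cases h8 : Rel β T x γ
    · rw [emb_of h8] at h7
      exact Or.inl ⟨(hRel x hx γ hγ).2 h8, (h1 n).2 h7⟩
    · rw [emb_of_not h8] at h7
      exact Or.inr ⟨fun h9 => h8 ((hRel x hx γ hγ).1 h9), (h0 n).2 h7⟩

/-! ### The theorem -/

/-- a function with the values `0` and `1` on a pair of complementary open sets is continuous -/
theorem cont (hN : IsZFC N) (h : LadM N κ E L T) (hX : SpM N κ E L X) {β c γ : ZFSet.{0}}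
    (hcx : c ⊆ X.x) {u v : ZFSet.{0}} (hu : u ∈ X.o) (hv : v ∈ X.o)
    (h1 : ∀ x ∈ c, x ∈ u ↔ Rel β T x γ) (h2 : ∀ x ∈ c, x ∈ v ↔ ¬ Rel β T x γ) (r : ℝ) :
    (∃ u ∈ X.o, ∀ x ∈ c, x ∈ u ↔ r < emb β T x γ) ∧
      ∃ u ∈ X.o, ∀ x ∈ c, x ∈ u ↔ emb β T x γ < r := by
  have hv01 : ∀ x, emb β T x γ = 1 ∧ Rel β T x γ ∨ emb β T x γ = 0 ∧ ¬ Rel β T x γ := by
    intro x
    by_cases h3 : Rel β T x γ
    · exact Or.inl ⟨emb_of h3, h3⟩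
    · exact Or.inr ⟨emb_of_not h3, h3⟩
  constructor
  · by_cases h3 : r < 0
    · refine ⟨X.x, x_open h hX, fun x hx => ⟨fun _ => ?_, fun _ => hcx hx⟩⟩
      rcases hv01 x with ⟨h4, -⟩ | ⟨h4, -⟩ <;> rw [h4] <;> linarith
    · by_cases h4 : r < 1
      · refine ⟨u, hu, fun x hx => ?_⟩
        rw [h1 x hx]
        rcases hv01 x with ⟨h5, h6⟩ | ⟨h5, h6⟩ <;> rw [h5]
        · exact ⟨fun _ => h4, fun _ => h6⟩
        · exact ⟨fun h7 => absurd h7 h6, fun h7 => absurd h7 h3⟩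
      · refine ⟨∅, empty_open hN hX, fun x hx => ⟨fun h5 => absurd h5 (ZFSet.notMem_empty _),
          fun h5 => ?_⟩⟩
        exfalso
        rcases hv01 x with ⟨h6, -⟩ | ⟨h6, -⟩ <;> rw [h6] at h5
        · exact h4 h5
        · exact h3 h5
  · by_cases h3 : 1 < r
    · refine ⟨X.x, x_open h hX, fun x hx => ⟨fun _ => ?_, fun _ => hcx hx⟩⟩
      rcases hv01 x with ⟨h4, -⟩ | ⟨h4, -⟩ <;> rw [h4] <;> linarith
    · by_cases h4 : 0 < r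
      · refine ⟨v, hv, fun x hx => ?_⟩
        rw [h2 x hx]
        rcases hv01 x with ⟨h5, h6⟩ | ⟨h5, h6⟩ <;> rw [h5]
        · exact ⟨fun h7 => absurd h6 h7, fun h7 => absurd h7 h3⟩
        · exact ⟨fun _ => h4, fun _ => h6⟩
      · refine ⟨∅, empty_open hN hX, fun x hx => ⟨fun h5 => absurd h5 (ZFSet.notMem_empty _),
          fun h5 => ?_⟩⟩
        exfalso
        rcases hv01 x with ⟨h6, -⟩ | ⟨h6, -⟩ <;> rw [h6] at h5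
        · exact h3 h5
        · exact h4 h5

/-- Block IN2. -/
theorem star (hN : IsZFC N) (h : LadM N κ E L T) (hX : SpM N κ E L X) : Star N X := by
  intro P hP a ha _ hO
  obtain ⟨α, hα, hb⟩ := exists_bound2 hN h hP ha hO
  obtain ⟨β, hβ, hαβ⟩ := h.lim α hα
  have hβN := hN.trans _ h.κN _ hβ
  have hcN := cls_mem hN hX ha
  have hcx : cls X a ⊆ X.x := fun z hz => by
    rw [cls, ZFSet.mem_sep] at hz
    exact hz.1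
  have ciso : ∀ ξ, iso ξ ∈ cls X a → ξ ∈ κ ∧ ξ ∈ β := by
    intro ξ hξ
    obtain ⟨h1, h2⟩ := cls_iso hN h hX hξ
    exact ⟨h1, (h.ord.mem hβ).mem_trans (hb ξ h1 (Or.inl h2)) hαβ⟩
  have clmt : ∀ δ, lmt δ ∈ cls X a → δ ∈ E ∧ δ ∈ β := by
    intro δ hδ
    obtain ⟨h1, h2⟩ := cls_lmt hN h hX hα hb hδ
    refine ⟨h1, ?_⟩
    rcases h2 with h2 | rfl
    · exact (h.ord.mem hβ).mem_trans h2 hαβ
    · exact hαβ
  obtain ⟨g, hg, h1⟩ := sep7 hN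
    (R := fun z β a0 a1 _ _ _ _ => (∃ ξ ∈ β, z = pair a0 ξ) ∨ ∃ δ ∈ β, z = pair a1 δ)
    (.or (.exB hN 1 (.pair hN 1 3 0)) (.exB hN 1 (.pair hN 1 4 0)))
    hX.xN hβN (nat_mem hN 0) (nat_mem hN 1) hβN hβN hβN hβN
  have hgm : ∀ z, z ∈ g ↔ z ∈ X.x ∧ ((∃ ξ ∈ β, z = iso ξ) ∨ ∃ δ ∈ β, z = lmt δ) := h1
  have isog : ∀ ξ, iso ξ ∈ cls X a → iso ξ ∈ g := fun ξ hξ =>
    (hgm _).2 ⟨hcx hξ, Or.inl ⟨ξ, (ciso ξ hξ).2, rfl⟩⟩
  have lmtg : ∀ ξ, lmt ξ ∈ cls X a → lmt ξ ∈ g := fun ξ hξ =>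
    (hgm _).2 ⟨hcx hξ, Or.inr ⟨ξ, (clmt ξ hξ).2, rfl⟩⟩
  have cases3 : ∀ x ∈ cls X a, (∃ ξ, x = iso ξ) ∨ (∃ δ, x = lmt δ) ∨ x = ifty := by
    intro x hx
    rcases (hX.mem_x x).1 (hcx hx) with ⟨ξ, -, h2⟩ | ⟨ξ, -, h2⟩ | h2
    · exact Or.inl ⟨ξ, h2⟩
    · exact Or.inr (Or.inl ⟨ξ, h2⟩)
    · exact Or.inr (Or.inr h2)
  -- transfer of the value `1`
  have tr : ∀ x y, (∀ γ ∈ g, emb β T x γ = emb β T y γ) → ∀ γ ∈ g, Rel β T x γ →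
      Rel β T y γ := by
    intro x y hxy γ hγ h2
    by_contra h3
    have := hxy γ hγ
    rw [emb_of h2, emb_of_not h3] at this
    exact one_ne_zero this
  have isoinj : ∀ ξ y, iso ξ ∈ cls X a → (∀ γ ∈ g, emb β T (iso ξ) γ = emb β T y γ) →
      iso ξ = y := by
    intro ξ y hξ hxy
    rcases tr _ _ hxy _ (isog ξ hξ) (Or.inl rfl) with h2 | ⟨η, δ, -, h2, -⟩
    · exact h2.symm
    · exact absurd h2 iso_ne_lmt
  have lmtinj : ∀ δ y, lmt δ ∈ cls X a → (∀ ξ, y ≠ iso ξ) →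
      (∀ γ ∈ g, emb β T (lmt δ) γ = emb β T y γ) → lmt δ = y := by
    intro δ y hδ hy hxy
    rcases tr _ _ hxy _ (lmtg δ hδ) (Or.inl rfl) with h2 | ⟨η, δ, h2, -, -⟩
    · exact h2.symm
    · exact absurd h2 (hy η)
  refine ⟨g, hg, emb β T, coded hN h hβN hcN hg, ?_, ?_, ?_, 1, ?_⟩
  · intro x hx y hy hxy
    rcases cases3 x hx with ⟨ξ, rfl⟩ | ⟨δ, rfl⟩ | rfl
    · exact isoinj ξ y hx hxy
    · rcases cases3 y hy with ⟨ξ', rfl⟩ | ⟨δ', rfl⟩ | rfl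
      · exact (isoinj ξ' _ hy fun γ hγ => (hxy γ hγ).symm).symm
      · exact lmtinj δ _ hx (fun ξ h2 => iso_ne_lmt h2.symm) hxy
      · exact lmtinj δ _ hx (fun ξ h2 => iso_ne_ifty h2.symm) hxy
    · rcases cases3 y hy with ⟨ξ', rfl⟩ | ⟨δ', rfl⟩ | rfl
      · exact (isoinj ξ' _ hy fun γ hγ => (hxy γ hγ).symm).symm
      · exact (lmtinj δ' _ hy (fun ξ h2 => iso_ne_ifty h2.symm)
          fun γ hγ => (hxy γ hγ).symm).symm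
      · rfl
  · intro γ hγ r _
    obtain ⟨hγx, h2⟩ := (hgm γ).1 hγ
    rcases h2 with ⟨ξ, hξ, rfl⟩ | ⟨δ, hδ, rfl⟩
    · have hξκ := (iso_mem_x hX).1 hγx
      obtain ⟨v, hv, h3⟩ := iso_compl_open hN h hX hξκ
      have hRel : ∀ x, Rel β T x (iso ξ) ↔ x = iso ξ := by
        intro x
        constructor
        · rintro (h4 | ⟨η, δ, -, h4, -⟩)
          · exact h4
          · exact absurd h4 iso_ne_lmt
        · intro h4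
          exact Or.inl h4
      refine cont hN h hX hcx (iso_open hN h hX hξκ) hv ?_ ?_ r
      · intro x _
        rw [ZFSet.mem_singleton, hRel]
      · intro x hx
        rw [h3, hRel]
        exact ⟨fun h4 => h4.2, fun h4 => ⟨hcx hx, h4⟩⟩
    · obtain ⟨u, hu, v, hv, h3, h4⟩ := clopen hN h hX ((lmt_mem_x hX).1 hγx) hβ hδ
      have hRel : ∀ x, Rel β T x (lmt δ) ↔ x ∈ u := by
        intro x
        rw [h3]
        constructor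
        · rintro (h4 | ⟨η, δ', h4, h5, h6⟩)
          · exact Or.inl h4
          · rw [lmt_inj h5]
            exact Or.inr ⟨η, h4, h6⟩
        · rintro (h4 | ⟨η, h4, h6⟩)
          · exact Or.inl h4
          · exact Or.inr ⟨η, δ, h4, rfl, h6⟩
      refine cont hN h hX hcx hu hv ?_ ?_ r
      · intro x _
        exact (hRel x).symm
      · intro x hx
        rw [h4, hRel]
        exact ⟨fun h4 => h4.2, fun h4 => ⟨hcx hx, h4⟩⟩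
  · intro x _ ε hε
    have h2 : {γ | γ ∈ g ∧ ∃ ξ δ, x = iso ξ ∧ γ = lmt δ ∧ pair β (pair δ ξ) ∈ T}.Finite := by
      refine Set.Subsingleton.finite ?_
      rintro γ ⟨hγ, ξ, δ, rfl, rfl, h3⟩ γ' ⟨hγ', ξ', δ', h4, rfl, h5⟩
      have h6 := iso_inj h4
      subst h6
      have h7 : δ ∈ β := by
        rcases ((hgm _).1 hγ).2 with ⟨η, -, h8⟩ | ⟨η, h7, h8⟩
        · exact absurd h8.symm iso_ne_lmt
        · rw [lmt_inj h8]; exact h7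
      have h9 : δ' ∈ β := by
        rcases ((hgm _).1 hγ').2 with ⟨η, -, h8⟩ | ⟨η, h7, h8⟩
        · exact absurd h8.symm iso_ne_lmt
        · rw [lmt_inj h8]; exact h7
      rw [h.T3 β hβ δ δ' ξ h7 h9 h3 h5]
    refine ((Set.finite_singleton x).union h2).subset ?_
    rintro γ ⟨hγ, h3⟩
    by_cases h4 : Rel β T x γ
    · rcases h4 with h4 | h4
      · exact Or.inl h4.symm
      · exact Or.inr ⟨hγ, h4⟩
    · rw [emb_of_not h4, abs_zero] at h3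
      exact absurd h3 (not_le.2 hε)
  · intro x _ γ _
    by_cases h4 : Rel β T x γ
    · rw [emb_of h4]; simp
    · rw [emb_of_not h4]; simp

end

end Pool.Agent.Helper23.EB.In2

namespace Pool.Agent.Helper23.EB

open Pool.Agent.Helper96.Fc

/-- Block IN2. -/
theorem star {N : Set ZFSet.{0}} {κ E L T : ZFSet.{0}} {X : Sp} (hN : IsZFC N)
    (h : LadM N κ E L T) (hX : SpM N κ E L X) : Star N X :=
  In2.star hN h hX

end Pool.Agent.Helper23.EB
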