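import Pool.Agent.Helper23.EB.Spc
import Pool.Agent.Helper26.FV.DF

/-!
# The space is not Eberlein compact in the model (block IN3, helper89)
-/

namespace Pool.Agent.Helper23.EB

open Pool.Agent.Helper96.Fc Pool.Agent.Helper89.FV

open ZFSet (pair)

namespace In3

/-- `⟨v i, ⟨v j, v k⟩⟩ ∈ v l` -/
theorem dfb_tri {N : Set ZFSet.{0}} (hN : IsZFC N) (i j k l : ℕ) :
    Dfb N (fun v => pair (v i) (pair (v j) (v k)) ∈ v l) :=
  .congr (.ex (.and (.pair hN 0 (j + 1) (k + 1)) (.pair_mem hN (i + 1) 0 (l + 1))))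
    fun v hv => by
    constructor
    · rintro ⟨x, -, h1, h2⟩
      have h1 : x = pair (v j) (v k) := h1
      have h2 : pair (v i) x ∈ v l := h2
      rwa [← h1]
    · intro h
      exact ⟨_, (pair_mem_iff hN).2 ⟨hv j, hv k⟩, rfl, h⟩

/-- `f x γ - f y γ > 1 / m` in terms of the code `z` of `f` -/
def Gt (N : Set ZFSet.{0}) (x y γ m z q : ZFSet.{0}) : Prop :=
  ∃ n ∈ N, ∃ n' ∈ N, pair x (pair γ n) ∈ z ∧ ¬ pair y (pair γ n') ∈ z ∧ pair n (pair n' m) ∈ q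

theorem dfb_gt {N : Set ZFSet.{0}} (hN : IsZFC N) (i j k l a b : ℕ) :
    Dfb N (fun v => Gt N (v i) (v j) (v k) (v l) (v a) (v b)) :=
  .ex (.ex (.and (dfb_tri hN (i + 2) (k + 2) 1 (a + 2))
    (.and (.neg (dfb_tri hN (j + 2) (k + 2) 0 (a + 2))) (dfb_tri hN 1 0 (l + 2) (b + 2)))))

/-- the relation `R`, for separation -/
def Rel (N : Set ZFSet.{0}) (w g z q n0 n1 i : ZFSet.{0}) : Prop :=
  ∃ ξ ∈ N, ∃ s ∈ N, w = pair ξ s ∧ ∃ m ∈ N, ∃ δ ∈ N, s = pair m δ ∧ ∃ a ∈ N, a = pair n0 ξ ∧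
    ∃ b ∈ N, b = pair n1 δ ∧ ∃ γ ∈ N, γ ∈ g ∧ ((Gt N b i γ m z q ∨ Gt N i b γ m z q) ∧
      (Gt N a i γ m z q ∨ Gt N i a γ m z q))

theorem dfb_rel {N : Set ZFSet.{0}} (hN : IsZFC N) :
    Dfb N (fun v => Rel N (v 0) (v 1) (v 2) (v 3) (v 4) (v 5) (v 6)) :=
  .ex (.ex (.and (.pair hN 2 1 0) (.ex (.ex (.and (.pair hN 2 1 0) (.ex (.and (.pair hN 0 9 4)
    (.ex (.and (.pair hN 0 11 2) (.ex (.and (.mem 0 8) (.and
      (.or (dfb_gt hN 1 13 0 4 9 10) (dfb_gt hN 13 1 0 4 9 10))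
      (.or (dfb_gt hN 2 13 0 4 9 10) (dfb_gt hN 13 2 0 4 9 10))))))))))))))

theorem exists_rt (a b : ℝ) (h : a < b) : ∃ n, a < rt n ∧ rt n < b := by
  obtain ⟨q, h1, h2⟩ := exists_rat_btwn h
  refine ⟨Denumerable.eqv ℚ q, ?_⟩
  unfold rt
  rw [Equiv.symm_apply_apply]
  exact ⟨h1, h2⟩

theorem gt_iff {N : Set ZFSet.{0}} (hN : IsZFC N) {c g z q : ZFSet.{0}}
    {f : ZFSet.{0} → ZFSet.{0} → ℝ}
    (hz : ∀ w, w ∈ z ↔ ∃ x ∈ c, ∃ γ ∈ g, ∃ n : ℕ, rt n < f x γ ∧ w = pair x (pair γ (nat n)))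
    (hq : ∀ w, w ∈ q ↔ ∃ n n' m : ℕ, 1 < (m : ℝ) * (rt n - rt n') ∧
      w = pair (nat n) (pair (nat n') (nat m)))
    {x y γ : ZFSet.{0}} (hx : x ∈ c) (hy : y ∈ c) (hγ : γ ∈ g) (m : ℕ) :
    Gt N x y γ (nat m) z q ↔ 1 < (m : ℝ) * (f x γ - f y γ) := by
  have key : ∀ x ∈ c, ∀ n : ℕ, pair x (pair γ (nat n)) ∈ z ↔ rt n < f x γ := by
    intro x hx n
    rw [hz]
    constructor
    · rintro ⟨x', -, γ', -, n', h1, h2⟩
      obtain ⟨rfl, h3⟩ := ZFSet.pair_inj.1 h2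
      obtain ⟨rfl, h4⟩ := ZFSet.pair_inj.1 h3
      rwa [nat_inj (m := n) (n := n') h4]
    · intro h
      exact ⟨x, hx, γ, hγ, n, h, rfl⟩
  constructor
  · rintro ⟨a, -, a', -, h1, h2, h3⟩
    obtain ⟨n, n', m', h4, h5⟩ := (hq _).1 h3
    obtain ⟨rfl, h6⟩ := ZFSet.pair_inj.1 h5
    obtain ⟨rfl, h7⟩ := ZFSet.pair_inj.1 h6
    have hm : m = m' := nat_inj (m := m) (n := m') h7
    subst hm
    rw [key x hx] at h1
    rw [key y hy] at h2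
    refine h4.trans_le (mul_le_mul_of_nonneg_left ?_ (Nat.cast_nonneg m))
    linarith [not_lt.1 h2]
  · intro h
    have hm : (0 : ℝ) < m := by
      rcases Nat.eq_zero_or_pos m with rfl | hm
      · norm_num at h
      · exact_mod_cast hm
    have h1 : (1 : ℝ) / m < f x γ - f y γ := by
      rw [div_lt_iff₀ hm]
      linarith
    set e : ℝ := (f x γ - f y γ - 1 / m) / 2 with he
    have he0 : 0 < e := by
      rw [he]
      linarith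
    obtain ⟨n, h2, h3⟩ := exists_rt (f x γ - e) (f x γ) (by linarith)
    obtain ⟨n', h4, h5⟩ := exists_rt (f y γ) (f y γ + e) (by linarith)
    refine ⟨nat n, nat_mem hN n, nat n', nat_mem hN n', (key x hx n).2 h3, ?_, ?_⟩
    · rw [key y hy]
      exact not_lt.2 h4.le
    · rw [hq]
      refine ⟨n, n', m, ?_, rfl⟩
      have h6 : (1 : ℝ) / m < rt n - rt n' := by
        have : f x γ - e - (f y γ + e) = 1 / m := by
          rw [he]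
          ring
        linarith
      rw [div_lt_iff₀ hm] at h6
      linarith

theorem bdd {κ : ZFSet.{0}} (ord : κ.IsOrdinal) (lim : ∀ α ∈ κ, ∃ β ∈ κ, α ∈ β) {ξ : ZFSet.{0}}
    (hξ : ξ ∈ κ) {F : Set ZFSet.{0}} (hF : F.Finite) (h : ∀ δ ∈ F, δ ∈ κ) :
    ∃ β ∈ κ, ∀ δ ∈ F, δ ∈ β := by
  induction F, hF using Set.Finite.induction_on with
  | empty => exact ⟨ξ, hξ, fun δ hδ => absurd hδ (Set.notMem_empty δ)⟩
  | @insert δ F _ _ ih =>
    obtain ⟨β, hβ, h1⟩ := ih fun δ hδ => h δ (Set.mem_insert_of_mem _ hδ)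
    have hδ := h δ (Set.mem_insert _ _)
    have oδ := ord.mem hδ
    have oβ := ord.mem hβ
    obtain ⟨β', hβ', h2⟩ : ∃ β' ∈ κ, δ ∈ β' ∧ β ⊆ β' := by
      rcases oδ.mem_trichotomous oβ with h2 | rfl | h2
      · exact ⟨β, hβ, h2, fun _ h => h⟩
      · obtain ⟨β', hβ', h3⟩ := lim _ hβ
        exact ⟨β', hβ', h3, fun _ h => (ord.mem hβ').mem_trans h h3⟩
      · obtain ⟨β', hβ', h3⟩ := lim _ hδ
        exact ⟨β', hβ', h3, fun _ h =>
          (ord.mem hβ').mem_trans (oδ.mem_trans h h2) h3⟩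
    refine ⟨β', hβ', fun ε hε => ?_⟩
    rcases hε with rfl | hε
    · exact h2.1
    · exact h2.2 (h1 ε hε)

end In3

open In3

theorem not_eb {N : Set ZFSet.{0}} (hN : IsZFC N) {κ E L T : ZFSet.{0}} (h : LadM N κ E L T)
    {X : Sp} (hX : SpM N κ E L X) : ¬ Eb N X X.x := by
  rintro ⟨g, hg, f, ⟨z, hzN, hz⟩, hinj, hcont, hc0, -⟩
  obtain ⟨q, hqN, hq⟩ := h.rat
  have hi : ∀ {ξ}, ξ ∈ κ → iso ξ ∈ X.x := fun {ξ} hξ => (hX.mem_x _).2 (Or.inl ⟨ξ, hξ, rfl⟩)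
  have hl : ∀ {δ}, δ ∈ E → lmt δ ∈ X.x :=
    fun {δ} hδ => (hX.mem_x _).2 (Or.inr (Or.inl ⟨δ, hδ, rfl⟩))
  have hinf : ifty ∈ X.x := (hX.mem_x _).2 (Or.inr (Or.inr rfl))
  have n0 : nat 0 ∈ N := nat_mem hN 0
  have n1 : nat 1 ∈ N := nat_mem hN 1
  have n2 : ifty ∈ N := (pair_mem_iff hN).2 ⟨nat_mem hN 2, nat_mem hN 0⟩
  have hif : ∀ {δ}, lmt δ ≠ ifty := by
    intro δ hδ
    have h1 := nat_inj (m := 1) (n := 2) (ZFSet.pair_inj.1 hδ).1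
    omega
  have lt_abs : ∀ (m : ℕ) (a b : ℝ), 1 < (m : ℝ) * |a - b| ↔
      (1 < (m : ℝ) * (a - b) ∨ 1 < (m : ℝ) * (b - a)) := by
    intro m a b
    rcases le_total b a with hab | hab
    · rw [abs_of_nonneg (by linarith)]
      constructor
      · exact Or.inl
      · rintro (h1 | h1)
        · exact h1
        · have : (m : ℝ) * (b - a) ≤ 0 :=
            mul_nonpos_of_nonneg_of_nonpos (Nat.cast_nonneg m) (by linarith)
          linarith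
    · rw [abs_of_nonpos (by linarith), neg_sub]
      constructor
      · exact Or.inr
      · rintro (h1 | h1)
        · have : (m : ℝ) * (a - b) ≤ 0 :=
            mul_nonpos_of_nonneg_of_nonpos (Nat.cast_nonneg m) (by linarith)
          linarith
        · exact h1
  -- the set `R`
  obtain ⟨p1, hp1, hp1'⟩ := exists_prod hN (om_mem hN) h.EN
  obtain ⟨p2, hp2, hp2'⟩ := exists_prod hN h.κN hp1
  obtain ⟨R, hR, hR'⟩ := (dfb_rel hN).sep hN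
    (v := cns g (cns z (cns q (cns (nat 0) (cns (nat 1) (fun _ => ifty))))))
    (cns_mem hg (cns_mem hzN (cns_mem hqN (cns_mem n0 (cns_mem n1 fun _ => n2))))) hp2
  have hR1 : ∀ w, w ∈ R ↔ w ∈ p2 ∧ Rel N w g z q (nat 0) (nat 1) ifty := hR'
  have key : ∀ ξ (m : ℕ) δ, pair ξ (pair (nat m) δ) ∈ R ↔ ξ ∈ κ ∧ δ ∈ E ∧ ∃ γ ∈ g,
      1 < (m : ℝ) * |f (lmt δ) γ - f ifty γ| ∧ 1 < (m : ℝ) * |f (iso ξ) γ - f ifty γ| := by
    intro ξ m δ
    rw [hR1]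
    constructor
    · rintro ⟨h1, h2⟩
      obtain ⟨ξ', hξ, s, hs, h3⟩ := (hp2' _).1 h1
      obtain ⟨rfl, hs'⟩ := ZFSet.pair_inj.1 h3
      obtain ⟨m', -, δ', hδ, h4⟩ := (hp1' _).1 hs
      rw [h4] at hs'
      obtain ⟨-, rfl⟩ := ZFSet.pair_inj.1 hs'
      refine ⟨hξ, hδ, ?_⟩
      obtain ⟨ξ', -, s', -, h5, m'', -, δ', -, h6, a, -, rfl, b, -, rfl, γ, -, hγ, h7, h8⟩ := h2
      obtain ⟨rfl, h9⟩ := ZFSet.pair_inj.1 h5
      rw [h6] at h9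
      obtain ⟨rfl, rfl⟩ := ZFSet.pair_inj.1 h9
      refine ⟨γ, hγ, ?_, ?_⟩
      · rw [lt_abs]
        exact h7.imp (gt_iff hN hz hq (hl hδ) hinf hγ m).1 (gt_iff hN hz hq hinf (hl hδ) hγ m).1
      · rw [lt_abs]
        exact h8.imp (gt_iff hN hz hq (hi hξ) hinf hγ m).1 (gt_iff hN hz hq hinf (hi hξ) hγ m).1
    · rintro ⟨hξ, hδ, γ, hγ, h1, h2⟩
      have hξN := hN.trans κ h.κN ξ hξ
      have hδN := hN.trans E h.EN δ hδ
      have hγN := hN.trans g hg γ hγ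
      rw [lt_abs] at h1 h2
      refine ⟨(hp2' _).2 ⟨ξ, hξ, _, (hp1' _).2 ⟨nat m, nat_mem_om m, δ, hδ, rfl⟩, rfl⟩, ?_⟩
      refine ⟨ξ, hξN, _, (pair_mem_iff hN).2 ⟨nat_mem hN m, hδN⟩, rfl, nat m, nat_mem hN m, δ,
        hδN, rfl, iso ξ, (pair_mem_iff hN).2 ⟨n0, hξN⟩, rfl, lmt δ,
        (pair_mem_iff hN).2 ⟨n1, hδN⟩, rfl, γ, hγN, hγ, ?_, ?_⟩
      · exact h1.imp (gt_iff hN hz hq (hl hδ) hinf hγ m).2 (gt_iff hN hz hq hinf (hl hδ) hγ m).2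
      · exact h2.imp (gt_iff hN hz hq (hi hξ) hinf hγ m).2 (gt_iff hN hz hq hinf (hi hξ) hγ m).2
  -- continuity
  have fin1 : ∀ γ ∈ g, ∀ m : ℕ, {δ | δ ∈ E ∧ 1 < (m : ℝ) * |f (lmt δ) γ - f ifty γ|}.Finite := by
    intro γ hγ m
    rcases Nat.eq_zero_or_pos m with rfl | hm
    · refine Set.Finite.subset Set.finite_empty ?_
      rintro δ ⟨-, h1⟩
      norm_num at h1
    have hm' : (0 : ℝ) < m := by exact_mod_cast hm
    have hm1 : (0 : ℝ) < 1 / m := by positivity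
    obtain ⟨n, h1, h2⟩ := exists_rt (f ifty γ - 1 / m) (f ifty γ) (by linarith)
    obtain ⟨n', h3, h4⟩ := exists_rt (f ifty γ) (f ifty γ + 1 / m) (by linarith)
    obtain ⟨u, hu, hu'⟩ := (hcont γ hγ (rt n) ⟨n, rfl⟩).1
    obtain ⟨u', hv, hv'⟩ := (hcont γ hγ (rt n') ⟨n', rfl⟩).2
    obtain ⟨D, hD, hD1, -⟩ := ((hX.mem_o u).1 hu).2.2.2 ((hu' _ hinf).2 h2)
    obtain ⟨D', hD', hD1', -⟩ := ((hX.mem_o u').1 hv).2.2.2 ((hv' _ hinf).2 h3)
    refine (hD.union hD').subset ?_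
    rintro δ ⟨hδ, h5⟩
    by_contra h6
    rw [Set.mem_union, not_or] at h6
    have h7 : rt n < f (lmt δ) γ := by
      by_contra h8
      exact h6.1 (hD1 δ hδ fun h9 => h8 ((hu' _ (hl hδ)).1 h9))
    have h8 : f (lmt δ) γ < rt n' := by
      by_contra h8
      exact h6.2 (hD1' δ hδ fun h9 => h8 ((hv' _ (hl hδ)).1 h9))
    have h9 : |f (lmt δ) γ - f ifty γ| < 1 / m := by
      rw [abs_lt]
      constructor <;> linarith
    rw [lt_div_iff₀ hm'] at h9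
    linarith
  have fin2 : ∀ ξ ∈ κ, ∀ m : ℕ, {γ | γ ∈ g ∧ 1 < (m : ℝ) * |f (iso ξ) γ - f ifty γ|}.Finite := by
    intro ξ hξ m
    rcases Nat.eq_zero_or_pos m with rfl | hm
    · refine Set.Finite.subset Set.finite_empty ?_
      rintro δ ⟨-, h1⟩
      norm_num at h1
    have hm' : (0 : ℝ) < m := by exact_mod_cast hm
    have hm1 : (0 : ℝ) < 1 / (2 * m) := by positivity
    refine ((hc0 _ (hi hξ) _ hm1).union (hc0 _ hinf _ hm1)).subset ?_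
    rintro γ ⟨hγ, h1⟩
    by_contra h2
    rw [Set.mem_union, not_or] at h2
    have h3 : |f (iso ξ) γ| < 1 / (2 * m) := by
      by_contra h4
      exact h2.1 ⟨hγ, not_lt.1 h4⟩
    have h4 : |f ifty γ| < 1 / (2 * m) := by
      by_contra h4
      exact h2.2 ⟨hγ, not_lt.1 h4⟩
    have h5 : |f (iso ξ) γ - f ifty γ| ≤ |f (iso ξ) γ| + |f ifty γ| := abs_sub _ _
    have h6 : |f (iso ξ) γ - f ifty γ| < 1 / m := by
      have : (1 : ℝ) / (2 * m) + 1 / (2 * m) = 1 / m := by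
        field_simp
        norm_num
      linarith
    rw [lt_div_iff₀ hm'] at h6
    linarith
  refine h.nf ⟨R, hR, fun ξ hξ m => ?_, fun δ hδ => ?_⟩
  · have hfin : {δ | pair ξ (pair (nat m) δ) ∈ R}.Finite := by
      refine ((fin2 ξ hξ m).biUnion
        (t := fun γ => {δ | γ ∈ g ∧ δ ∈ E ∧ 1 < (m : ℝ) * |f (lmt δ) γ - f ifty γ|}) ?_).subset ?_
      · intro γ hγ
        exact (fin1 γ hγ.1 m).subset fun δ hδ => hδ.2
      · intro δ hδ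
        obtain ⟨-, hδE, γ, hγ, h1, h2⟩ := (key _ _ _).1 hδ
        exact Set.mem_biUnion (x := γ) ⟨hγ, h2⟩ ⟨hγ, hδE, h1⟩
    obtain ⟨β, hβ, h1⟩ := bdd h.ord h.lim hξ hfin fun δ hδ => h.Eκ ((key _ _ _).1 hδ).2.1
    exact ⟨β, hβ, fun δ _ hδ => h1 δ hδ⟩
  · obtain ⟨γ, hγ, h1⟩ : ∃ γ ∈ g, f (lmt δ) γ ≠ f ifty γ := by
      by_contra hne
      refine hif (hinj _ (hl hδ) _ hinf fun γ hγ => ?_)
      by_contra h1
      exact hne ⟨γ, hγ, h1⟩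
    have h2 : 0 < |f (lmt δ) γ - f ifty γ| := abs_pos.2 (sub_ne_zero.2 h1)
    obtain ⟨m, h3⟩ := exists_nat_gt (1 / |f (lmt δ) γ - f ifty γ|)
    rw [div_lt_iff₀ h2] at h3
    have hm' : (0 : ℝ) < m := by
      rcases Nat.eq_zero_or_pos m with rfl | hm
      · norm_num at h3
      · exact_mod_cast hm
    refine ⟨m, ?_⟩
    have hsub : ∀ {ξ}, pair δ ξ ∈ L → ξ ∈ κ := fun {ξ} hξ =>
      h.ord.mem_trans (h.L1 _ _ hξ).2 (h.Eκ hδ)
    rcases (lt_abs m _ _).1 h3 with h4 | h4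
    · have h5 : f ifty γ + 1 / m < f (lmt δ) γ := by
        have : 1 / (m : ℝ) < f (lmt δ) γ - f ifty γ := by
          rw [div_lt_iff₀ hm']
          linarith
        linarith
      obtain ⟨n, h6, h7⟩ := exists_rt _ _ h5
      obtain ⟨u, hu, hu'⟩ := (hcont γ hγ (rt n) ⟨n, rfl⟩).1
      refine (((hX.mem_o u).1 hu).2.2.1 δ hδ ((hu' _ (hl hδ)).2 h7)).subset ?_
      rintro ξ ⟨hξ, hξR⟩
      refine ⟨hξ, fun hξu => hξR ?_⟩
      have hξκ := hsub hξ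
      have h8 := (hu' _ (hi hξκ)).1 hξu
      refine (key _ _ _).2 ⟨hξκ, hδ, γ, hγ, h3, ?_⟩
      rw [lt_abs]
      left
      have : 1 / (m : ℝ) < f (iso ξ) γ - f ifty γ := by linarith
      rw [div_lt_iff₀ hm'] at this
      linarith
    · have h5 : f (lmt δ) γ < f ifty γ - 1 / m := by
        have : 1 / (m : ℝ) < f ifty γ - f (lmt δ) γ := by
          rw [div_lt_iff₀ hm']
          linarith
        linarith
      obtain ⟨n, h6, h7⟩ := exists_rt _ _ h5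
      obtain ⟨u, hu, hu'⟩ := (hcont γ hγ (rt n) ⟨n, rfl⟩).2
      refine (((hX.mem_o u).1 hu).2.2.1 δ hδ ((hu' _ (hl hδ)).2 h6)).subset ?_
      rintro ξ ⟨hξ, hξR⟩
      refine ⟨hξ, fun hξu => hξR ?_⟩
      have hξκ := hsub hξ
      have h8 := (hu' _ (hi hξκ)).1 hξu
      refine (key _ _ _).2 ⟨hξκ, hδ, γ, hγ, h3, ?_⟩
      rw [lt_abs]
      right
      have : 1 / (m : ℝ) < f ifty γ - f (iso ξ) γ := by linarith
      rw [div_lt_iff₀ hm'] at this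
      linarith

end Pool.Agent.Helper23.EB
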