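import Pool.Agent.Helper23.EB.EDefs
import Pool.Agent.Helper23.PI.PS

/-!
# Ladder systems: in the model, and forced
-/

namespace Pool.Agent.Helper23.EB

open Pool.Agent.Helper96.Fc Pool.Agent.Helper23.PI

open ZFSet (pair)

/-- The ladder system in the model `N`. Here `κ` is an ordinal, `E ⊆ κ`, the set `L` of pairs
`⟨δ, ξ⟩` describes the ladders `A_δ = {ξ | ⟨δ, ξ⟩ ∈ L}`, `δ ∈ E`, and the set `T` of triples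
`⟨α, ⟨δ, ξ⟩⟩` describes sets `T_{α,δ}`, almost equal to `A_δ` for `δ < α` and disjoint for different
`δ < α`. -/
structure LadM (N : Set ZFSet.{0}) (κ E L T : ZFSet.{0}) : Prop where
  κN : κ ∈ N
  EN : E ∈ N
  LN : L ∈ N
  TN : T ∈ N
  ord : κ.IsOrdinal
  lim : ∀ α ∈ κ, ∃ β ∈ κ, α ∈ β
  Eκ : E ⊆ κ
  L1 : ∀ δ ξ, pair δ ξ ∈ L → δ ∈ E ∧ ξ ∈ δ
  L2 : ∀ δ ∈ E, ∀ ζ ∈ δ, {ξ | pair δ ξ ∈ L ∧ ξ ∈ ζ}.Finite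
  T1 : ∀ α δ ξ, pair α (pair δ ξ) ∈ T → pair δ ξ ∈ L
  T2 : ∀ α ∈ κ, ∀ δ ∈ E, δ ∈ α → {ξ | pair δ ξ ∈ L ∧ pair α (pair δ ξ) ∉ T}.Finite
  T3 : ∀ α ∈ κ, ∀ δ δ' ξ, δ ∈ α → δ' ∈ α → pair α (pair δ ξ) ∈ T → pair α (pair δ' ξ) ∈ T → δ = δ'
  /-- sets of size at most the continuum are bounded -/
  bd : ∀ P, IsPow N om P → ∀ a ∈ N, a ⊆ κ → Onto N P a → ∃ α ∈ κ, a ⊆ α
  /-- the system is not `σ`-free -/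
  nf : ¬ ∃ R ∈ N, (∀ ξ ∈ κ, ∀ m : ℕ, ∃ β ∈ κ, ∀ δ ∈ E, pair ξ (pair (nat m) δ) ∈ R → δ ∈ β) ∧
    ∀ δ ∈ E, ∃ m : ℕ, {ξ | pair δ ξ ∈ L ∧ pair ξ (pair (nat m) δ) ∉ R}.Finite
  /-- an auxiliary relation between natural numbers -/
  rat : ∃ q ∈ N, ∀ w, w ∈ q ↔ ∃ n n' m : ℕ, 1 < (m : ℝ) * (rt n - rt n') ∧
    w = pair (nat n) (pair (nat n') (nat m))

/-- The forced ladder system. `HE δ` is the set of the conditions forcing `δ ∈ E`, `HL δ ξ` the set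
of those forcing `ξ ∈ A_δ`, `HT α δ ξ` the set of those forcing `ξ ∈ T_{α,δ}`. -/
structure LadF {P : Type} [PartialOrder P] {K : Type} [LinearOrder K] (HE : K → Set P)
    (HL : K → K → Set P) (HT : K → K → K → Set P) : Prop where
  regE : ∀ δ, RegSet (HE δ)
  regL : ∀ δ ξ, RegSet (HL δ ξ)
  regT : ∀ α δ ξ, RegSet (HT α δ ξ)
  L1 : ∀ δ ξ, ∀ p ∈ HL δ ξ, p ∈ HE δ ∧ ξ < δ
  L2 : ∀ δ, ∀ p ∈ HE δ, ∀ ζ < δ, ∃ q ≤ p, ∃ F : Set K, F.Finite ∧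
    ∀ ξ < ζ, ∀ q' ≤ q, q' ∈ HL δ ξ → ξ ∈ F
  T1 : ∀ α δ ξ, ∀ p ∈ HT α δ ξ, p ∈ HL δ ξ
  T2 : ∀ α δ, δ < α → ∀ p ∈ HE δ, ∃ q ≤ p, ∃ F : Set K, F.Finite ∧
    ∀ ξ, ξ ∉ F → ∀ q' ≤ q, q' ∈ HL δ ξ → q' ∈ HT α δ ξ
  T3 : ∀ α δ δ' ξ, δ < α → δ' < α → ∀ p ∈ HT α δ ξ, p ∈ HT α δ' ξ → δ = δ'
  /-- the system is not `σ`-free -/
  nf : ∀ (r : P) (Ψ : P → K → ℕ → K → Prop), (∀ p q ξ m δ, q ≤ p → Ψ p ξ m δ → Ψ q ξ m δ) →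
    (∀ p ≤ r, ∀ ξ m, ∃ q ≤ p, ∃ β : K, ∀ q' ≤ q, ∀ δ, Ψ q' ξ m δ → δ ≤ β) →
    (∀ p ≤ r, ∀ δ, p ∈ HE δ → ∃ q ≤ p, ∃ (m : ℕ) (F : Set K), F.Finite ∧
      ∀ ξ, ξ ∉ F → ∀ q' ≤ q, q' ∈ HL δ ξ → Ψ q' ξ m δ) → False

/-- antichains have fewer than `κ` elements -/
def CC (P : Type) [PartialOrder P] (κ : Cardinal.{0}) : Prop :=
  ∀ A : Set P, (∀ p ∈ A, ∀ q ∈ A, p ≠ q → ¬ ∃ r, r ≤ p ∧ r ≤ q) → Cardinal.mk A < κ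

end Pool.Agent.Helper23.EB
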