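import Pool.Agent.Helper23.EB.Lad

/-!
# The one-point compactification of the ladder space
-/

namespace Pool.Agent.Helper23.EB

open Pool.Agent.Helper96.Fc

open ZFSet (pair)

/-- isolated points -/
noncomputable def iso (ξ : ZFSet.{0}) : ZFSet.{0} := pair (nat 0) ξ

/-- points corresponding to the ladders -/
noncomputable def lmt (δ : ZFSet.{0}) : ZFSet.{0} := pair (nat 1) δ

/-- the point at infinity -/
noncomputable def ifty : ZFSet.{0} := pair (nat 2) (nat 0)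

/-- `X` is the one-point compactification of the ladder space in `N` -/
structure SpM (N : Set ZFSet.{0}) (κ E L : ZFSet.{0}) (X : Sp) : Prop where
  xN : X.x ∈ N
  oN : X.o ∈ N
  mem_x : ∀ z, z ∈ X.x ↔ (∃ ξ ∈ κ, z = iso ξ) ∨ (∃ δ ∈ E, z = lmt δ) ∨ z = ifty
  mem_o : ∀ u, u ∈ X.o ↔ u ∈ N ∧ u ⊆ X.x ∧
    (∀ δ ∈ E, lmt δ ∈ u → {ξ | pair δ ξ ∈ L ∧ iso ξ ∉ u}.Finite) ∧
    (ifty ∈ u → ∃ D : Set ZFSet.{0}, D.Finite ∧ (∀ δ ∈ E, lmt δ ∉ u → δ ∈ D) ∧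
      {ξ | ξ ∈ κ ∧ iso ξ ∉ u ∧ ∀ δ ∈ D, pair δ ξ ∉ L}.Finite)

end Pool.Agent.Helper23.EB
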